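import Pool.Agent.H130Z.UPG.Step

set_option autoImplicit false

namespace Pool.Agent.H130Z.UPG

open Sg

def R (x : ℤ → T) (P : (ℤ → T) → Prop) : Prop := ∃ n, P (F^[n] x)

theorem R.refl {x : ℤ → T} {P : (ℤ → T) → Prop} (h : P x) : R x P := ⟨0, h⟩
theorem R.step {x : ℤ → T} {P : (ℤ → T) → Prop} (h : R (F x) P) : R x P := by
  obtain ⟨n, hn⟩ := h
  exact ⟨n + 1, by rwa [Function.iterate_succ_apply]⟩
theorem R.iter {x : ℤ → T} {P : (ℤ → T) → Prop} (k : ℕ) (h : R (F^[k] x) P) : R x P := by
  obtain ⟨n, hn⟩ := h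
  exact ⟨n + k, by rwa [Function.iterate_add_apply]⟩
theorem R.trans {x : ℤ → T} {P P' : (ℤ → T) → Prop} (h : R x P) (h2 : ∀ y, P y → R y P') :
    R x P' := by
  obtain ⟨n, hn⟩ := h
  exact R.iter n (h2 _ hn)

variable {x : ℤ → T} {i c : ℤ} {b : Tp} {t : ℤ → Tp} {qq : Sg}

theorem Cf.passL (h : Cf x i b t c true qq) (n : ℕ) (hi : i ≤ c - n)
    (hp : ∀ j, c - n < j → j ≤ c → pi ((t j, false), qq, nil) = ((t j, false), qq, nil)) :
    Cf (F^[n] x) i b t (c - n) true qq := by
  induction n with
  | zero => simpa using h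
  | succ n ih =>
    push_cast at hi hp
    have h1 := ih (by omega) (fun j h1 h2 => hp j (by omega) h2)
    rw [Function.iterate_succ_apply']
    have h2 := h1.stepL (by omega) (h.ns (c - n) (by omega)) (Or.inl rfl)
      (by simpa using hp (c - n) (by omega) (by omega))
    rw [Function.update_eq_self] at h2
    have e : c - ((n + 1 : ℕ) : ℤ) = c - n - 1 := by push_cast; ring
    rw [e]; exact h2

theorem Cf.passR (h : Cf x i b t c false qq) (n : ℕ)
    (hp : ∀ j, c ≤ j → j < c + n → pi ((t j, false), nil, qq) = ((t j, false), nil, qq)) :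
    Cf (F^[n] x) i b t (c + n) false qq := by
  have hc := h.lt rfl
  induction n with
  | zero => simpa using h
  | succ n ih =>
    push_cast at hp
    have h1 := ih (fun j h1 h2 => hp j h1 (by omega))
    rw [Function.iterate_succ_apply']
    have h2 := h1.stepR (by omega) (h.ns (c + n) (by omega))
      (by simpa using hp (c + n) (by omega) (by omega))
    rw [Function.update_eq_self] at h2
    have e : c + ((n + 1 : ℕ) : ℤ) = c + n + 1 := by push_cast; ring
    rw [e]; exact h2

theorem cleanWall (n : ℕ) : ∀ (x : ℤ → T) (b : Tp) (tg : Bool), rkB b < n →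
    Cf x i b t (i + 1) false (c1 tg) → R x (fun y => Cf y i z t i true dec) := by
  induction n with
  | zero => intro x b tg h; omega
  | succ n ih =>
    intro x b tg hb h
    have hq := h.ns (i + 1) (by omega)
    have h1 := h.stepL (by omega) hq (Or.inr ⟨_, rfl⟩)
      (by exact (pi_rl (Rl.c1 (t (i + 1)) tg) hq))
    rw [Function.update_eq_self, add_sub_cancel_right] at h1
    apply R.step
    by_cases hz : b = z
    · subst hz; exact R.refl h1
    · have h2 := h1.stepW (fun s => pi_rl (Rl.decS b s) hz)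
      apply R.step
      exact ih _ _ _ (by have := pB_lt b hz; omega) h2

theorem cleanCell (n : ℕ) : ∀ (x : ℤ → T) (t : ℤ → Tp), rkB (t (i + 1)) < n →
    Cf x i b t i true dec2 → R x (fun y => Cf y i b (Function.update t (i + 1) z) i true toF) := by
  induction n with
  | zero => intro x t h; omega
  | succ n ih =>
    intro x t hb h
    have h1 := h.stepW (fun s => pi_rl (Rl.dec2 b s) trivial)
    have hq := h.ns (i + 1) (by omega)
    apply R.step
    apply R.step
    by_cases hz : t (i + 1) = z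
    · have h2 := h1.stepL (b' := z) (q' := toF) (by omega) (Q_dat _) (Or.inr ⟨some none, rfl⟩)
        (by rw [hz]; exact (pi_rl Rl.ackZ trivial))
      rw [add_sub_cancel_right] at h2
      exact R.refl h2
    · have h2 := h1.stepL (b' := pB (t (i + 1))) (q' := dec2) (by omega) (pB_Q _ hz hq)
        (Or.inr ⟨some none, rfl⟩) (by exact (pi_rl (Rl.ackS (t (i + 1))) ⟨hz, hq⟩))
      rw [add_sub_cancel_right] at h2
      have h3 := ih _ _ (by have := pB_lt _ hz; simp; omega) h2
      simpa using h3

theorem execM (h : Cf x i b t i true (go false)) :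
    R x (fun y => ∃ b', Cf y (i - 1) b' (Function.update t i z) i false fetch) := by
  have h1 := h.stepW (fun s => pi_rl (Rl.goM b s) trivial)
  apply R.step
  refine (cleanWall _ _ _ _ (Nat.lt_succ_self _) h1).trans (fun y hy => ?_)
  obtain ⟨s, s', b', h2⟩ := hy.stepMove
  apply R.step; apply R.step; apply R.step
  refine (cleanCell _ _ _ (Nat.lt_succ_self _) h2).trans (fun y hy => ?_)
  have h3 := hy.stepW (fun s => pi_rl (Rl.toF b' s) trivial)
  apply R.step
  refine R.refl ⟨b', ?_⟩
  simpa using h3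

theorem execI (h : Cf x i b t i true (go true)) {d : Dat} (hd : t (i + 1) = Tp.dat d) :
    R x (fun y => Cf y i b (Function.update t (i + 1) (Tp.dat (sc d))) (i + 1) false fetch) := by
  have h1 := h.stepW (fun s => pi_rl (Rl.goI b s) trivial)
  have h2 := h1.stepL (b' := Tp.dat (sc d)) (q' := toF) (by omega) (Q_dat _) (Or.inr ⟨none, rfl⟩)
    (by rw [hd]; exact (pi_rl (Rl.incD d) trivial))
  rw [add_sub_cancel_right] at h2
  have h3 := h2.stepW (fun s => pi_rl (Rl.toF b s) trivial)
  apply R.step; apply R.step; apply R.step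
  exact R.refl h3

/-- The tape right of the wall: data up to `h`, then the program, an end marker and blanks. -/
def tp (h : ℤ) (L : ℕ) (D : ℤ → Dat) (P dn : ℤ → Bool) : ℤ → Tp := fun j =>
  if j ≤ h then Tp.dat (D j) else if j ≤ h + L then Tp.m (P j) (dn j)
  else if j = h + L + 1 then Tp.fin else z

/-- The effect of one instruction. -/
noncomputable def stp : Bool → ℤ × (ℤ → Dat) → ℤ × (ℤ → Dat)
  | false, s => (s.1 - 1, Function.update s.2 s.1 Dat.blank)
  | true, s => (s.1, Function.update s.2 (s.1 + 1) (sc (s.2 (s.1 + 1))))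

theorem go_exec {h : ℤ} {L : ℕ} {D : ℤ → Dat} {P dn : ℤ → Bool} {ins : Bool}
    (hc : Cf x i b (tp h L D P dn) c true (go ins)) (h1 : c ≤ h + L) (h2 : i ≤ h)
    (h3 : ins = true → i < h) :
    R x (fun y => ∃ b', Cf y (stp ins (i, D)).1 b' (tp h L (stp ins (i, D)).2 P dn)
      ((stp ins (i, D)).1 + 1) false fetch) := by
  have hle := hc.le
  have h4 := hc.passL (c - i).toNat (by omega) (fun j a1 a2 => pi_rl (Rl.goPass _ ins) (by
    show GP (tp h L D P dn j)
    unfold tp
    split_ifs <;> first | trivial | omega))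
  have e : c - ((c - i).toNat : ℤ) = i := by omega
  rw [e] at h4
  apply R.iter (c - i).toNat
  cases ins with
  | false =>
    refine (execM h4).trans (fun y ⟨b', hy⟩ => R.refl ⟨b', ?_⟩)
    simp only [stp, sub_add_cancel]
    refine hy.congr (fun j hj => ?_)
    by_cases hji : j = i
    · subst hji; simp [tp, h2]
    · simp [tp, Function.update_of_ne hji]
  | true =>
    have h5 := h3 rfl
    refine (execI h4 (d := D (i + 1)) (by simp [tp]; omega)).trans (fun y hy => R.refl ⟨b, ?_⟩)
    simp only [stp]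
    refine hy.congr (fun j hj => ?_)
    by_cases hji : j = i + 1
    · subst hji; simp [tp]; omega
    · simp [tp, Function.update_of_ne hji]

def bit (h : ℤ) (L N : ℕ) (j : ℤ) : Bool := N.testBit (h + L - j).toNat

def FS (h : ℤ) (L N n : ℕ) (s : ℤ × (ℤ → Dat)) (x : ℤ → T) : Prop :=
  s.1 < h ∧ ∃ b, Cf x s.1 b (tp h L s.2 (bit h L N) (fun j => decide (j ≤ h + n))) (s.1 + 1) false fetch

theorem stp_le (ins : Bool) (s : ℤ × (ℤ → Dat)) : (stp ins s).1 ≤ s.1 := by
  cases ins <;> simp [stp]

theorem fetch_pass {h : ℤ} {L N n : ℕ} {s : ℤ × (ℤ → Dat)} (hn : n ≤ L) (hx : FS h L N n s x) :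
    R x (fun y => ∃ b, Cf y s.1 b (tp h L s.2 (bit h L N) (fun j => decide (j ≤ h + n)))
      (h + n + 1) false fetch) := by
  obtain ⟨h1, b, hc⟩ := hx
  have h4 := hc.passR (h + n - s.1).toNat (fun j a1 a2 => pi_rl (Rl.fPass _) (by
    show FP (tp h L s.2 _ _ j)
    unfold tp
    have : j ≤ h + n := by omega
    split_ifs
    · trivial
    · simp [this, FP]
    · omega
    · omega))
  have e : s.1 + 1 + ((h + n - s.1).toNat : ℤ) = h + n + 1 := by omega
  rw [e] at h4
  exact ⟨_, b, h4⟩

theorem fetch_step {h : ℤ} {L N n : ℕ} {s : ℤ × (ℤ → Dat)} (hn : n < L) (hx : FS h L N n s x) :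
    R x (FS h L N (n + 1) (stp (N.testBit (L - 1 - n)) s)) := by
  have h1 := hx.1
  refine (fetch_pass hn.le hx).trans (fun y ⟨b, hy⟩ => ?_)
  have e1 : tp h L s.2 (bit h L N) (fun j => decide (j ≤ h + n)) (h + n + 1) =
      Tp.m (N.testBit (L - 1 - n)) false := by
    have a1 : ¬ (h + n + 1 ≤ h) := by omega
    have a2 : h + n + 1 ≤ h + L := by omega
    have a3 : (h + L - (h + n + 1)).toNat = L - 1 - n := by omega
    simp only [tp, a1, a2, if_true, if_false, bit, a3]
    simp
  have h2 := hy.stepL (b' := Tp.m (N.testBit (L - 1 - n)) true) (q' := go (N.testBit (L - 1 - n)))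
    (by omega) (Q_m _ _) (Or.inr ⟨none, rfl⟩) (by rw [e1]; exact (pi_rl (Rl.fTurn _) trivial))
  have h3 := h2.congr (t' := tp h L s.2 (bit h L N) (fun j => decide (j ≤ h + (n + 1 : ℕ)))) (by
    intro j hj
    by_cases hjn : j = h + n + 1
    · subst hjn
      have a1 : ¬ (h + n + 1 ≤ h) := by omega
      have a2 : h + n + 1 ≤ h + L := by omega
      have a3 : (h + L - (h + n + 1)).toNat = L - 1 - n := by omega
      simp only [tp, a1, a2, if_true, if_false, bit, a3, Function.update_self]
      simp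
    · rw [Function.update_of_ne hjn]
      have : (j ≤ h + (n + 1 : ℕ)) ↔ (j ≤ h + n) := by push_cast; omega
      simp only [tp, this])
  apply R.step
  refine (go_exec h3 (by omega) h1.le (fun _ => h1)).trans (fun y ⟨b', hy⟩ => R.refl ⟨?_, b', hy⟩)
  exact lt_of_le_of_lt (stp_le _ _) h1

noncomputable def run (L N : ℕ) (s : ℤ × (ℤ → Dat)) : ℕ → ℤ × (ℤ → Dat)
  | 0 => s
  | n + 1 => stp (N.testBit (L - 1 - n)) (run L N s n)

theorem fetch_all {h : ℤ} {L N : ℕ} {s : ℤ × (ℤ → Dat)} (hx : FS h L N 0 s x) (n : ℕ) (hn : n ≤ L) :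
    R x (FS h L N n (run L N s n)) := by
  induction n with
  | zero => exact R.refl hx
  | succ n ih => exact (ih (by omega)).trans (fun y hy => fetch_step (by omega) hy)

def cy (N : ℕ) : ℕ → Bool
  | 0 => true
  | j + 1 => N.testBit j && cy N j

theorem cy_succ (j : ℕ) : ∀ N : ℕ, cy N (j + 1) = (N.testBit 0 && cy (N / 2) j) := by
  induction j with
  | zero => intro N; simp [cy]
  | succ j ih =>
    intro N
    rw [cy, ih, cy, Nat.testBit_succ]
    cases N.testBit 0 <;> simp

theorem testBit_add_one (j : ℕ) : ∀ N : ℕ, (N + 1).testBit j = xor (N.testBit j) (cy N j) := by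
  induction j with
  | zero =>
    intro N
    simp only [Nat.testBit_zero, cy]
    rcases Nat.mod_two_eq_zero_or_one N with h | h
    · have : (N + 1) % 2 = 1 := by omega
      simp [h, this]
    · have : (N + 1) % 2 = 0 := by omega
      simp [h, this]
  | succ j ih =>
    intro N
    rw [Nat.testBit_succ, Nat.testBit_succ, cy_succ, Nat.testBit_zero]
    rcases Nat.mod_two_eq_zero_or_one N with h | h
    · have : (N + 1) / 2 = N / 2 := by omega
      simp [h, this]
    · have : (N + 1) / 2 = N / 2 + 1 := by omega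
      simp [h, this, ih]

theorem cy_iff {N L : ℕ} (hN : N < 2 ^ L) : cy N L = true ↔ ¬ (N + 1 < 2 ^ L) := by
  have h1 := testBit_add_one L N
  rw [Nat.testBit_lt_two_pow hN] at h1
  simp only [Bool.false_bne] at h1
  rw [← h1]
  constructor
  · intro h h2
    rw [Nat.testBit_lt_two_pow h2] at h
    exact absurd h (by simp)
  · intro h
    have : N + 1 = 2 ^ L := by omega
    rw [this]; simp

theorem back_sweep {h : ℤ} {L N : ℕ} {D : ℤ → Dat} (hi : i < h)
    (hx : Cf x i b (tp h L D (bit h L N) (fun j => decide (j ≤ h + L))) (h + L) true (back true))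
    (k : ℕ) (hk : k ≤ L) :
    Cf (F^[k] x) i b (tp h L D (fun j => if h + L - k < j then bit h L (N + 1) j else bit h L N j)
      (fun j => decide (j ≤ h + L - k))) (h + L - k) true (back (cy N k)) := by
  induction k with
  | zero =>
    simp only [Function.iterate_zero, id, Nat.cast_zero, sub_zero, cy]
    refine hx.congr (fun j hj => ?_)
    by_cases a1 : h + L < j
    · have a2 : ¬ (j ≤ h + L) := by omega
      simp only [tp, a2, if_false]
    · simp only [tp, a1, if_false]
  | succ k ih =>
    have h1 := ih (by omega)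
    have a1 : ¬ (h + L - k ≤ h) := by omega
    have a2 : h + L - k ≤ h + L := by omega
    have a3 : (h + L - (h + L - k)).toNat = k := by omega
    have h2 := h1.stepL (b' := Tp.m (xor (N.testBit k) (cy N k)) false)
      (q' := back (N.testBit k && cy N k)) (by omega) (Q_m _ _) (Or.inr ⟨some (some (cy N k)), rfl⟩) (by
        simp only [tp, a1, a2, if_true, if_false, bit, a3, lt_irrefl, le_refl, decide_true]
        exact pi_rl (Rl.back _ _) trivial)
    rw [Function.iterate_succ_apply']
    have e : h + L - ((k + 1 : ℕ) : ℤ) = h + L - k - 1 := by push_cast; ring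
    rw [e, cy]
    refine h2.congr (fun j hj => ?_)
    by_cases hjn : j = h + L - k
    · subst hjn
      have a4 : h + L - k - 1 < h + L - k := by omega
      have a5 : ¬ (h + L - k ≤ h + L - k - 1) := by omega
      simp only [tp, a1, a2, if_true, if_false, bit, a3, Function.update_self, a4, a5,
        testBit_add_one, decide_false]
    · rw [Function.update_of_ne hjn]
      have b1 : (h + L - k - 1 < j) ↔ (h + L - k < j) := by omega
      have b2 : (j ≤ h + L - k - 1) ↔ (j ≤ h + L - k) := by omega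
      simp only [tp, b1, b2]

def RS (h : ℤ) (L N : ℕ) (i : ℤ) (x : ℤ → T) : Prop :=
  i ≤ h ∧ ∃ b D, Cf x i b (tp h L D (bit h L N) (fun _ => false)) (h + L) true (go false)

theorem wait_norm {h : ℤ} {L N : ℕ} {D : ℤ → Dat}
    (hx : Cf x h b (tp h L D (bit h L N) (fun _ => false)) (h + 1) false (wait false)) :
    (∀ k ≤ L, (F^[k] x h).1.2 = true ∧ (F^[k] x h).2.1 = nil) ∧ R x (RS h L N h) := by
  have h1 : ∀ k ≤ L, Cf (F^[k] x) h b (tp h L D (bit h L N) (fun _ => false)) (h + 1 + k) false
      (wait false) := by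
    intro k hk
    refine hx.passR k (fun j a1 a2 => ?_)
    have a3 : ¬ (j ≤ h) := by omega
    have a4 : j ≤ h + L := by omega
    simp only [tp, a3, a4, if_true, if_false]
    exact pi_rl (Rl.wPass _ _) trivial
  refine ⟨fun k hk => ⟨by rw [(h1 k hk).wall], by rw [(h1 k hk).l h le_rfl]; simp⟩, ?_⟩
  have a1 : ¬ (h + 1 + L ≤ h) := by omega
  have a2 : ¬ (h + 1 + L ≤ h + L) := by omega
  have a3 : h + 1 + L = h + L + 1 := by omega
  have e1 : tp h L D (bit h L N) (fun _ => false) (h + 1 + L) = Tp.fin := by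
    simp only [tp, a1, a2, if_false]
    simp [a3]
  have h2 := (h1 L le_rfl).stepL (b' := Tp.fin) (q' := go false) (by omega) Q_fin (Or.inr ⟨none, rfl⟩)
    (by rw [e1]; exact (pi_rl Rl.wEnd trivial))
  rw [← e1, Function.update_eq_self] at h2
  have e2 : h + 1 + L - 1 = h + L := by ring
  rw [e2] at h2
  apply R.iter L
  apply R.step
  exact R.refl ⟨le_rfl, b, D, h2⟩

theorem wait_over {h : ℤ} {L : ℕ} {D : ℤ → Dat} {P : ℤ → Bool} (hL : 1 ≤ L)
    (hP : ∀ j, h < j → j ≤ h + L → P j = false)
    (hx : Cf x h b (tp h L D P (fun _ => false)) (h + 1) false w0) :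
    (∀ k ≤ L, (F^[k] x h).1.2 = true ∧ (F^[k] x h).2.1 = nil) ∧ R x (RS (h + 1) (L + 2) 0 h) := by
  have e0 : tp h L D P (fun _ => false) (h + 1) = Tp.m false false := by
    have a1 : ¬ (h + 1 ≤ h) := by omega
    have a2 : h + 1 ≤ h + L := by omega
    simp only [tp, a1, a2, if_true, if_false, hP (h + 1) (by omega) a2]
  have h0 := hx.stepR (b' := z) (q' := wait true) (by omega) (Q_dat _)
    (by rw [e0]; exact (pi_rl Rl.w0 trivial))
  set t0 := Function.update (tp h L D P (fun _ => false)) (h + 1) z with ht0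
  have h1 : ∀ k, k + 1 ≤ L → Cf (F^[k] (F x)) h b t0 (h + 1 + 1 + k) false (wait true) := by
    intro k hk
    refine h0.passR k (fun j a1 a2 => ?_)
    have a3 : ¬ (j ≤ h) := by omega
    have a4 : j ≤ h + L := by omega
    have a5 : j ≠ h + 1 := by omega
    simp only [ht0, Function.update_of_ne a5, tp, a3, a4, if_true, if_false]
    exact pi_rl (Rl.wPass _ _) trivial
  refine ⟨fun k hk => ?_, ?_⟩
  · cases k with
    | zero => exact ⟨by simp [hx.wall], by simpa using hx.l h le_rfl⟩
    | succ k =>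
      rw [Function.iterate_succ_apply]
      exact ⟨by rw [(h1 k hk).wall], by rw [(h1 k hk).l h le_rfl]; simp⟩
  obtain ⟨L', rfl⟩ : ∃ L', L = L' + 1 := ⟨L - 1, by omega⟩
  have h2 := h1 L' le_rfl
  have ez : ∀ j, h + L' + 2 < j → t0 j = z := by
    intro j hj
    have a3 : ¬ (j ≤ h) := by omega
    have a4 : ¬ (j ≤ h + (L' + 1 : ℕ)) := by push_cast; omega
    have a5 : j ≠ h + 1 := by omega
    have a6 : j ≠ h + (L' + 1 : ℕ) + 1 := by push_cast; omega
    simp only [ht0, Function.update_of_ne a5, tp, a3, a4, a6, if_false]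
  have e1 : t0 (h + 1 + 1 + L') = Tp.fin := by
    have a3 : ¬ (h + 1 + 1 + L' ≤ h) := by omega
    have a4 : ¬ (h + 1 + 1 + L' ≤ h + (L' + 1 : ℕ)) := by push_cast; omega
    have a5 : h + 1 + 1 + L' ≠ h + 1 := by omega
    have a6 : h + 1 + 1 + L' = h + (L' + 1 : ℕ) + 1 := by push_cast; omega
    simp only [ht0, Function.update_of_ne a5, tp, a3, a4, if_false]
    simp [a6]
  have h3 := h2.stepR (b' := Tp.m false false) (q' := y1) (by omega) (Q_m _ _)
    (by rw [e1]; exact (pi_rl Rl.wExt trivial))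
  have h4 := h3.stepR (b' := Tp.m false false) (q' := y2) (by omega) (Q_m _ _)
    (by rw [Function.update_of_ne (by omega), ez _ (by omega)]; exact (pi_rl Rl.y1 trivial))
  have h5 := h4.stepR (b' := Tp.m false false) (q' := y3) (by omega) (Q_m _ _)
    (by rw [Function.update_of_ne (by omega), Function.update_of_ne (by omega), ez _ (by omega)]
        exact (pi_rl Rl.y2 trivial))
  have h6 := h5.stepL (b' := Tp.fin) (q' := go false) (by omega) Q_fin (Or.inr ⟨some none, rfl⟩)
    (by rw [Function.update_of_ne (by omega), Function.update_of_ne (by omega),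
          Function.update_of_ne (by omega), ez _ (by omega)]
        exact (pi_rl Rl.y3 trivial))
  apply R.step
  apply R.iter L'
  apply R.step; apply R.step; apply R.step; apply R.step
  refine R.refl ⟨by omega, b, fun _ => Dat.blank, ?_⟩
  have e2 : h + 1 + 1 + L' + 1 + 1 + 1 - 1 = h + 1 + (L' + 1 + 2 : ℕ) := by push_cast; ring
  rw [e2] at h6
  refine h6.congr (fun j hj => ?_)
  simp only [ht0, Function.update_apply, tp, bit, Nat.zero_testBit]
  push_cast
  split_ifs <;> first | rfl | omega | (rw [hP j (by omega) (by push_cast; omega)])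

theorem round {h : ℤ} {L N : ℕ} (hx : RS h L N i x) (hN : N < 2 ^ L) (hL : 1 ≤ L) :
    ∃ D, R x (fun y =>
      ((run L N (stp false (i, D)) L).1 + 1 < h →
        Lab y (run L N (stp false (i, D)) L).1 h (run L N (stp false (i, D)) L).2 (h - 1)) ∧
      (∀ k ≤ L, (F^[k] y h).1.2 = true ∧ (F^[k] y h).2.1 = nil) ∧
      R y (if N + 1 < 2 ^ L then RS h L (N + 1) h else RS (h + 1) (L + 2) 0 h)) := by
  obtain ⟨hi, b, D, hc⟩ := hx
  refine ⟨D, ?_⟩
  refine (go_exec hc le_rfl hi (by simp)).trans (fun y ⟨b', hy⟩ => ?_)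
  have h1 : FS h L N 0 (stp false (i, D)) y := by
    refine ⟨by simp [stp]; omega, b', hy.congr (fun j hj => ?_)⟩
    unfold tp
    split_ifs <;> first | rfl | (simp; omega)
  refine (fetch_all h1 L le_rfl).trans (fun y hy => ?_)
  generalize run L N (stp false (i, D)) L = s at hy ⊢
  have hs := hy.1
  refine (fetch_pass le_rfl hy).trans (fun y ⟨b, hy⟩ => ?_)
  have e1 : tp h L s.2 (bit h L N) (fun j => decide (j ≤ h + L)) (h + L + 1) = Tp.fin := by
    have a1 : ¬ (h + L + 1 ≤ h) := by omega
    have a2 : ¬ (h + L + 1 ≤ h + L) := by omega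
    simp only [tp, a1, a2, if_false, if_true]
  have h2 := hy.stepL (b' := Tp.fin) (q' := back true) (by omega) Q_fin (Or.inr ⟨none, rfl⟩)
    (by rw [e1]; exact (pi_rl Rl.fEnd trivial))
  rw [← e1, Function.update_eq_self, add_sub_cancel_right] at h2
  have h3 := back_sweep hs h2 L le_rfl
  rw [add_sub_cancel_right] at h3
  have h4 := h3.congr (t' := tp h L s.2 (bit h L (N + 1)) (fun _ => false)) (fun j hj => by
    unfold tp
    split_ifs <;> first | rfl | omega | (simp; omega))
  apply R.step
  apply R.iter L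
  apply R.step
  apply R.refl
  have hd : tp h L s.2 (bit h L (N + 1)) (fun _ => false) h = Tp.dat (s.2 h) := by simp [tp]
  have hD : ∀ j, s.1 < j → j < h → tp h L s.2 (bit h L (N + 1)) (fun _ => false) j = Tp.dat (s.2 j) := by
    intro j _ hj
    simp [tp, hj.le]
  by_cases hlt : N + 1 < 2 ^ L
  · have hcy : cy N L = false := by
      by_contra hh
      exact (cy_iff hN).1 (by simpa using hh) hlt
    rw [hcy] at h4
    obtain ⟨h5, h6⟩ := h4.stepBuild hs hd (pi_rl (Rl.build0 _) trivial)
    rw [if_pos hlt]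
    exact ⟨h6 _ hD, wait_norm h5⟩
  · have hcy : cy N L = true := (cy_iff hN).2 hlt
    rw [hcy] at h4
    obtain ⟨h5, h6⟩ := h4.stepBuild hs hd (pi_rl (Rl.build1 _) trivial)
    rw [if_neg hlt]
    refine ⟨h6 _ hD, wait_over hL (fun j a1 a2 => ?_) h5⟩
    have : N + 1 = 2 ^ L := by omega
    rw [bit, this, Nat.testBit_two_pow_of_ne (by omega)]

end Pool.Agent.H130Z.UPG
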