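import Pool.Agent.H130Z.UPG.Rules

set_option autoImplicit false

namespace Pool.Agent.H130Z.UPG

open Sg Filter

theorem rho_z (s : Sg) : (pi.symm ((z, false), s, k)).1 = (z, false) ∧
    (pi.symm ((z, false), s, k)).2.1 ≠ mv := by
  by_cases hs : s = mv
  · subst hs
    have : pi.symm ((z, false), mv, k) = ((z, false), pre, q) := rho_rl Rl.kPre trivial
    simp [this]
  · have : pi.symm ((z, false), s, k) = ((z, false), s, k) := rho_rl (Rl.kPass s) hs
    simp [this, hs]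

theorem rhoK (a : A) (s : Sg) : rkA (pi.symm (a, s, k)).1 < rkA a ∨
    (pi.symm (a, s, k) = (a, s, k) ∧ (a = (z, false) ∨ a = (Tp.r, false))) ∨
    (s = mv ∧ a = (z, false) ∧ pi.symm (a, s, k) = ((z, false), pre, q)) := by
  by_cases h1 : a = (z, false)
  · subst h1
    by_cases hs : s = mv
    · subst hs
      exact Or.inr (Or.inr ⟨rfl, rfl, rho_rl Rl.kPre trivial⟩)
    · exact Or.inr (Or.inl ⟨rho_rl (Rl.kPass s) hs, Or.inl rfl⟩)
  by_cases h2 : (a, s) = ((Tp.r, false), Sg.h)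
  · obtain ⟨rfl, rfl⟩ := Prod.mk.inj h2
    exact Or.inr (Or.inl ⟨rho_rl (Rl.hPass k) trivial, Or.inr rfl⟩)
  by_cases h3 : ∃ o, (a, s) = ((Tp.d1 o, false), Sg.ea)
  · obtain ⟨o, h3⟩ := h3
    obtain ⟨rfl, rfl⟩ := Prod.mk.inj h3
    left
    have : pi.symm ((Tp.d1 o, false), ea, k) = ((Tp.dat (Dat.d2 k o), false), ea, nil) :=
      rho_rl (Rl.eaL k o) trivial
    rw [this]
    apply rkA_cls
    simp [clsA]
  by_cases h4 : (a, s) = ((Tp.r, false), Sg.eb)
  · obtain ⟨rfl, rfl⟩ := Prod.mk.inj h4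
    left
    have : pi.symm ((Tp.r, false), eb, k) = ((Tp.d1 (some k), false), eb, nil) :=
      rho_rl (Rl.ebS k) trivial
    rw [this]
    apply rkA_cls
    simp [clsA]
  left
  have : pi.symm (a, s, k) = (pA a, x (enc s).1, x (enc s).2) :=
    rho_rl (Rl.wr a s) ⟨h1, h2, fun o ho => h3 ⟨o, ho⟩, h4⟩
  rw [this]
  exact pA_lt a h1

theorem rho_mv (v : T) (hv : (pi.symm v).2.1 = mv) : ∃ t, v.2.2 = Sg.ack t := by
  obtain ⟨u, rfl⟩ := pi.surjective v
  obtain ⟨⟨b, c⟩, l, s⟩ := u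
  simp only [Equiv.symm_apply_apply] at hv
  subst hv
  have : pi ((b, c), mv, s) = ((b, true), s, Sg.ack (some c)) := pi_rl (Rl.move b c s) trivial
  rw [this]
  exact ⟨_, rfl⟩

theorem ev_const (f : ℕ → ℕ) (h : ∀ᶠ m in atTop, f (m + 1) ≤ f m) :
    ∀ᶠ m in atTop, ¬ f (m + 1) < f m := by
  obtain ⟨t, ht⟩ := eventually_atTop.1 h
  have key : ∀ v, ∀ t', t ≤ t' → f t' ≤ v → ∀ᶠ m in atTop, ¬ f (m + 1) < f m := by
    intro v
    induction v using Nat.strong_induction_on with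
    | _ v ih =>
      intro t' h1 h2
      by_cases hh : ∀ m, t' ≤ m → ¬ f (m + 1) < f m
      · exact eventually_atTop.2 ⟨t', hh⟩
      · push Not at hh
        obtain ⟨m, hm, hm2⟩ := hh
        have hmono : ∀ j, f (t' + j) ≤ f t' := by
          intro j
          induction j with
          | zero => simp
          | succ j ihj => exact le_trans (ht (t' + j) (by omega)) ihj
        have := hmono (m - t')
        rw [show t' + (m - t') = m by omega] at this
        exact ih (f (m + 1)) (by omega) (m + 1) (by omega) le_rfl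
  exact key _ t le_rfl le_rfl

theorem G_succ (y : ℤ → T) (m : ℕ) (j : ℤ) :
    G^[m + 1] y j = pi.symm ((G^[m] y j).1, (G^[m] y (j - 1)).2.1, (G^[m] y (j + 1)).2.2) := by
  rw [Function.iterate_succ_apply']; rfl

theorem fed_good (y : ℤ → T) (j : ℤ) (h : ∀ᶠ m in atTop, (G^[m] y (j + 1)).2.2 = k) :
    ∀ᶠ m in atTop, G^[m + 1] y j = ((G^[m] y j).1, (G^[m] y (j - 1)).2.1, k) ∧
      ((G^[m] y j).1 = (z, false) ∨ (G^[m] y j).1 = (Tp.r, false)) := by
  have h1 : ∀ᶠ m in atTop, rkA (G^[m + 1] y j).1 ≤ rkA (G^[m] y j).1 := by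
    filter_upwards [h] with m hm
    rw [G_succ, hm]
    rcases rhoK (G^[m] y j).1 (G^[m] y (j - 1)).2.1 with h2 | ⟨h2, _⟩ | ⟨_, h3, h2⟩
    · exact h2.le
    · rw [h2]
    · rw [h2, h3]
  have h2 := ev_const (fun m => rkA (G^[m] y j).1) h1
  have h3 : ∀ᶠ m in atTop, (G^[m + 1] y j).2.2 = k ∨ (G^[m + 1] y j).2.2 = q := by
    filter_upwards [h, h2] with m hm hm2
    rw [G_succ, hm] at hm2 ⊢
    rcases rhoK (G^[m] y j).1 (G^[m] y (j - 1)).2.1 with h2 | ⟨h2, _⟩ | ⟨_, _, h2⟩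
    · exact absurd h2 hm2
    · rw [h2]; simp
    · rw [h2]; simp
  have h4 : ∀ᶠ m in atTop, (G^[m] y (j - 1)).2.1 ≠ mv := by
    obtain ⟨t, ht⟩ := eventually_atTop.1 h3
    refine eventually_atTop.2 ⟨t + 2, fun m hm hmv => ?_⟩
    obtain ⟨m', rfl⟩ : ∃ m', m = m' + 1 + 1 := ⟨m - 2, by omega⟩
    rw [G_succ] at hmv
    obtain ⟨t', ht'⟩ := rho_mv _ hmv
    simp only [sub_add_cancel] at ht'
    rcases ht m' (by omega) with h5 | h5 <;> rw [h5] at ht' <;> simp at ht'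
  filter_upwards [h, h2, h4] with m hm hm2 hm4
  rw [G_succ, hm] at hm2 ⊢
  rcases rhoK (G^[m] y j).1 (G^[m] y (j - 1)).2.1 with h2 | h2 | ⟨h2, _, _⟩
  · exact absurd h2 hm2
  · exact h2
  · exact absurd h2 hm4

theorem ev_shift {P : ℕ → Prop} (h : ∀ᶠ m in atTop, P (m + 1)) : ∀ᶠ m in atTop, P m := by
  obtain ⟨t, ht⟩ := eventually_atTop.1 h
  refine eventually_atTop.2 ⟨t + 1, fun m hm => ?_⟩
  obtain ⟨m', rfl⟩ : ∃ m', m = m' + 1 := ⟨m - 1, by omega⟩
  exact ht m' (by omega)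

/-- The window surrounded by infinite streams. -/
def Y (u : ℤ → T) (n : ℕ) : ℤ → T := fun j =>
  if j < -n then ((Tp.r, false), h, nil) else if j ≤ n then u j
  else if j = n + 1 then ((z, false), nil, k) else if j = n + 2 then ((Tp.conv, false), nil, k)
  else ((Tp.r2, false), nil, ha)

structure IA (n : ℕ) (x : ℤ → T) : Prop where
  a : ∀ j : ℤ, j < -n → (x j).1 = (Tp.r, false) ∧ (x j).2.1 = h
  b : (x (n + 1)).1 = (z, false) ∧ (x (n + 1)).2.1 ≠ mv
  c : (x (n + 2)).1 = (Tp.conv, false) ∧ (x (n + 2)).2.1 ≠ mv ∧ (x (n + 2)).2.2 = k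
  d : ∀ j : ℤ, n + 2 < j → (x j).1 = (Tp.r2, false) ∧ (x j).2.1 ≠ mv ∧ (x j).2.2 = ha

theorem rho_h (s : Sg) : pi.symm ((Tp.r, false), h, s) = ((Tp.r, false), h, s) :=
  rho_rl (Rl.hPass s) trivial
theorem rho_ha (s : Sg) (hs : s ≠ mv) : pi.symm ((Tp.r2, false), s, ha) = ((Tp.r2, false), s, ha) :=
  rho_rl (Rl.haPass s) hs
theorem rho_hb (s : Sg) (hs : s ≠ mv) : pi.symm ((Tp.r2, false), s, hb) = ((Tp.r2, false), s, hb) :=
  rho_rl (Rl.hbPass s) hs
theorem rho_conv (s : Sg) (hs : s ≠ mv) :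
    pi.symm ((Tp.conv, false), s, ha) = ((Tp.conv, false), s, k) := rho_rl (Rl.convK s) hs
theorem rho_convH : pi.symm ((Tp.conv, false), h, hb) = ((Tp.conv, false), h, hb) :=
  rho_rl Rl.convH trivial
theorem rho_zH : pi.symm ((z, false), h, hb) = ((z, false), h, hb) := rho_rl Rl.zH trivial
theorem rho_zK : pi.symm ((z, false), h, k) = ((z, false), h, k) := rho_rl (Rl.kPass h) (by simp [ok])
theorem rho_idle (d : Dat) : pi.symm ((Tp.dat d, false), nil, nil) = ((Tp.dat d, false), nil, nil) :=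
  rho_rl (Rl.idle _) (Q_dat d)
theorem rho_eaL (s : Sg) (o : Option Sg) :
    pi.symm ((Tp.d1 o, false), ea, s) = ((Tp.dat (Dat.d2 s o), false), ea, nil) :=
  rho_rl (Rl.eaL s o) trivial
theorem rho_ebS (s : Sg) : pi.symm ((Tp.r, false), eb, s) = ((Tp.d1 (some s), false), eb, nil) :=
  rho_rl (Rl.ebS s) trivial
theorem rho_ebN : pi.symm ((z, false), eb, hb) = ((Tp.d1 none, false), eb, nil) :=
  rho_rl Rl.ebN trivial
theorem rho_eaR (s t : Sg) :
    pi.symm ((Tp.e1 t, false), s, ea) = ((Tp.dat (Dat.e2 s t), false), nil, ea) :=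
  rho_rl (Rl.eaR s t) trivial
theorem rho_ebR (s : Sg) : pi.symm ((Tp.r2, false), s, eb) = ((Tp.e1 s, false), nil, eb) :=
  rho_rl (Rl.ebR s) trivial
theorem rho_s1 : pi.symm ((Tp.conv, false), eb, eb) = ((Tp.s1, false), nil, nil) :=
  rho_rl Rl.s1 trivial
theorem rho_stGo : pi.symm ((Tp.s1, false), ea, ea) = ((Tp.dat Dat.s0, false), st, nil) :=
  rho_rl Rl.stGo trivial

theorem IA.step {n : ℕ} {x : ℤ → T} (hx : IA n x) : IA n (G x) := by
  refine ⟨fun j hj => ?_, ?_, ?_, fun j hj => ?_⟩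
  · simp only [G, (hx.a j hj).1, (hx.a (j - 1) (by omega)).2, rho_h, and_self]
  · have e : (n : ℤ) + 1 + 1 = n + 2 := by ring
    simp only [G, hx.b.1, e, hx.c.2.2]
    exact rho_z _
  · have e : (n : ℤ) + 2 - 1 = n + 1 := by ring
    simp only [G, hx.c.1, e, (hx.d (n + 2 + 1) (by omega)).2.2, rho_conv _ hx.b.2]
    exact ⟨trivial, hx.b.2, trivial⟩
  · have h1 : (x (j - 1)).2.1 ≠ mv := by
      by_cases hj2 : j - 1 = n + 2
      · rw [hj2]; exact hx.c.2.1
      · exact (hx.d (j - 1) (by omega)).2.1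
    simp only [G, (hx.d j hj).1, (hx.d (j + 1) (by omega)).2.2, rho_ha _ h1]
    exact ⟨trivial, h1, trivial⟩

theorem IA_Y (u : ℤ → T) (n m : ℕ) : IA n (G^[m] (Y u n)) := by
  induction m with
  | zero =>
    refine ⟨fun j hj => ?_, ?_, ?_, fun j hj => ?_⟩
    · simp [Y, hj]
    · have a1 : ¬ ((n : ℤ) + 1 < -n) := by omega
      simp [Y, a1]
    · have a1 : ¬ ((n : ℤ) + 2 < -n) := by omega
      simp [Y, a1]
    · have a1 : ¬ (j < -n) := by omega
      have a2 : ¬ (j ≤ n) := by omega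
      have a3 : j ≠ n + 1 := by omega
      have a4 : j ≠ n + 2 := by omega
      simp [Y, a1, a2, a3, a4]
  | succ m ih => rw [Function.iterate_succ_apply']; exact ih.step

def Term (n : ℕ) (x : ℤ → T) : Prop :=
  ∀ j : ℤ, -n ≤ j → j ≤ n + 1 →
    ((x j).1 = (z, false) ∨ (x j).1 = (Tp.r, false)) ∧ (x j).2.1 = h ∧ (x j).2.2 = k

theorem tame (u : ℤ → T) (n : ℕ) : ∃ t1 : ℕ, Term n (G^[t1] (Y u n)) := by
  have hfed : ∀ d : ℕ, ∀ᶠ m in atTop, (G^[m] (Y u n) (n + 1 - d + 1)).2.2 = k := by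
    intro d
    induction d with
    | zero =>
      refine Eventually.of_forall (fun m => ?_)
      have e : (n : ℤ) + 1 - (0 : ℕ) + 1 = n + 2 := by push_cast; ring
      rw [e]; exact (IA_Y u n m).c.2.2
    | succ d ih =>
      apply ev_shift
      filter_upwards [fed_good _ _ ih] with m hm
      have e : (n : ℤ) + 1 - ((d + 1 : ℕ) : ℤ) + 1 = n + 1 - d := by push_cast; ring
      rw [e, hm.1]
  have hgood : ∀ j : ℤ, j ≤ n + 1 → ∀ᶠ m in atTop,
      G^[m + 1] (Y u n) j = ((G^[m] (Y u n) j).1, (G^[m] (Y u n) (j - 1)).2.1, k) ∧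
      ((G^[m] (Y u n) j).1 = (z, false) ∨ (G^[m] (Y u n) j).1 = (Tp.r, false)) := by
    intro j hj
    apply fed_good
    have := hfed (n + 1 - j).toNat
    have e : (n : ℤ) + 1 - ((n + 1 - j).toNat : ℤ) + 1 = j + 1 := by omega
    rwa [e] at this
  have hH : ∀ d : ℕ, -n - 1 + (d : ℤ) ≤ n + 1 → ∀ᶠ m in atTop,
      (G^[m] (Y u n) (-n - 1 + d)).2.1 = h := by
    intro d
    induction d with
    | zero => intro _; exact Eventually.of_forall (fun m => ((IA_Y u n m).a _ (by omega)).2)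
    | succ d ih =>
      intro hd
      push_cast at hd
      apply ev_shift
      filter_upwards [ih (by omega), hgood _ hd] with m hm hm2
      push_cast
      rw [hm2.1]
      have e : -(n : ℤ) - 1 + (d + 1) - 1 = -n - 1 + d := by ring
      simp only [e, hm]
  have hall : ∀ j ∈ Finset.Icc (-(n : ℤ)) (n + 1), ∀ᶠ m in atTop,
      ((G^[m] (Y u n) j).1 = (z, false) ∨ (G^[m] (Y u n) j).1 = (Tp.r, false)) ∧
        (G^[m] (Y u n) j).2.1 = h ∧ (G^[m] (Y u n) j).2.2 = k := by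
    intro j hj
    rw [Finset.mem_Icc] at hj
    have h1 := hH (j + n + 1).toNat (by omega)
    have e : -(n : ℤ) - 1 + ((j + n + 1).toNat : ℤ) = j := by omega
    rw [e] at h1
    have h2 := hfed (n + 2 - j).toNat
    have e2 : (n : ℤ) + 1 - ((n + 2 - j).toNat : ℤ) + 1 = j := by omega
    rw [e2] at h2
    filter_upwards [h1, h2, hgood j hj.2] with m a1 a2 a3
    exact ⟨a3.2, a1, a2⟩
  obtain ⟨t1, ht1⟩ := ((eventually_all_finset _).2 hall).exists
  exact ⟨t1, fun j a1 a2 => ht1 j (Finset.mem_Icc.2 ⟨a1, a2⟩)⟩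

/-- The window surrounded by finite streams ending in the emitter heads. -/
def YT (u : ℤ → T) (n t1 τ : ℕ) : ℤ → T := fun j =>
  if j < n + 2 - τ then ((z, false), nil, nil)
  else if j = n + 2 - τ then ((z, false), ea, nil)
  else if j = n + 2 - τ + 1 then ((Tp.d1 (some nil), false), eb, nil)
  else if j < -n then ((Tp.r, false), h, nil) else if j ≤ n then u j
  else if j = n + 1 then ((z, false), nil, k) else if j = n + 2 then ((Tp.conv, false), nil, k)
  else if j < n + 2 + τ - 1 then ((Tp.r2, false), nil, if j - (n + 2) ≤ t1 then ha else hb)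
  else if j = n + 2 + τ - 1 then ((Tp.e1 nil, false), nil, eb)
  else if j = n + 2 + τ then ((z, false), nil, ea)
  else ((z, false), nil, nil)

structure IB (n t1 τ m : ℕ) (x : ℤ → T) : Prop where
  a : ∀ j : ℤ, j < n + 2 - τ + m → ∃ d, x j = ((Tp.dat d, false), nil, nil)
  b : ∃ d, x (n + 2 - τ + m) = ((Tp.dat d, false), ea, nil)
  c : ∃ o, x (n + 2 - τ + m + 1) = ((Tp.d1 o, false), eb, nil)
  d : ∀ j : ℤ, n + 2 + τ - m < j → ∃ d, SP d ∧ x j = ((Tp.dat d, false), nil, nil)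
  e : ∃ d, SP d ∧ x (n + 2 + τ - m) = ((Tp.dat d, false), nil, ea)
  f : ∃ s, x (n + 2 + τ - m - 1) = ((Tp.e1 s, false), nil, eb)
  g : ∀ j : ℤ, n + 2 - τ + m + 1 < j → j < -n → (x j).1 = (Tp.r, false) ∧ (x j).2.1 = h
  hh : ∀ j : ℤ, n + 2 < j → j < n + 2 + τ - m - 1 → (x j).1 = (Tp.r2, false) ∧ (x j).2.1 ≠ mv ∧
    (x j).2.2 = if j - (n + 2) + m ≤ t1 then ha else hb
  i : (x (n + 2)).1 = (Tp.conv, false) ∧ (x (n + 2)).2.1 ≠ mv ∧
    (x (n + 2)).2.2 = if m ≤ t1 then k else hb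
  j : m ≤ t1 → (x (n + 1)).1 = (z, false) ∧ (x (n + 1)).2.1 ≠ mv
  kk : t1 ≤ m → ∀ j : ℤ, -n ≤ j → j < n + 2 → n + 2 - τ + m + 1 < j →
    ((x j).1 = (z, false) ∨ (x j).1 = (Tp.r, false)) ∧ (x j).2.1 = h ∧
      (x j).2.2 = if (m : ℤ) - (n + 2 - j) ≤ t1 then k else hb

theorem IB.step {n t1 τ m : ℕ} {x : ℤ → T} (hx : IB n t1 τ m x) (hτ : t1 + 4 * n + 6 ≤ τ)
    (hm : m + 3 ≤ τ) (hT : m + 1 = t1 → Term n (G x)) : IB n t1 τ (m + 1) (G x) := by
  obtain ⟨db, hb⟩ := hx.b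
  obtain ⟨oc, hc⟩ := hx.c
  obtain ⟨de, hde, he⟩ := hx.e
  obtain ⟨sf, hf⟩ := hx.f
  have rr : ∀ j : ℤ, t1 ≤ m → -n ≤ j → j ≤ n + 2 → n + 2 - τ + m + 1 < j →
      (x j).2.2 = if (m : ℤ) - (n + 2 - j) ≤ t1 then k else Sg.hb := by
    intro j h0 h1 h2 h3
    by_cases hj : j = n + 2
    · subst hj
      rw [hx.i.2.2]
      by_cases h4 : m ≤ t1
      · rw [if_pos h4, if_pos (by omega)]
      · rw [if_neg h4, if_neg (by omega)]
    · exact (hx.kk h0 j h1 (by omega) h3).2.2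
  refine ⟨fun j hj => ?_, ?_, ?_, fun j hj => ?_, ?_, ?_, fun j h1 h2 => ?_, fun j h1 h2 => ?_,
    ?_, fun h1 => ?_, fun h1 j h2 h3 h4 => ?_⟩
  · push_cast at hj
    obtain ⟨d1, h1⟩ := hx.a (j - 1) (by omega)
    have h2 : (x (j + 1)).2.2 = nil := by
      by_cases a1 : j + 1 < n + 2 - τ + m
      · obtain ⟨d, hd⟩ := hx.a _ a1; rw [hd]
      · by_cases a2 : j + 1 = n + 2 - τ + m
        · rw [a2, hb]
        · rw [show j + 1 = n + 2 - τ + m + 1 by omega, hc]
    have h3 : ∃ d, (x j).1 = (Tp.dat d, false) := by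
      by_cases a1 : j < n + 2 - τ + m
      · obtain ⟨d, hd⟩ := hx.a _ a1; exact ⟨d, by rw [hd]⟩
      · rw [show j = n + 2 - τ + m by omega, hb]; exact ⟨_, rfl⟩
    obtain ⟨d, h3⟩ := h3
    exact ⟨d, by simp only [G, h1, h2, h3, rho_idle]⟩
  · push_cast
    rw [← add_assoc]
    simp only [G, add_sub_cancel_right, hb, hc, rho_eaL]
    exact ⟨_, rfl⟩
  · push_cast
    rw [← add_assoc]
    simp only [G, add_sub_cancel_right, hc]
    by_cases a1 : (n : ℤ) + 2 - τ + m + 1 + 1 < -n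
    · rw [(hx.g _ (by omega) a1).1, rho_ebS]; exact ⟨_, rfl⟩
    · have a2 : t1 ≤ m := by omega
      rcases (hx.kk a2 (n + 2 - τ + m + 1 + 1) (by omega) (by omega) (by omega)).1 with a3 | a3
      · rw [a3, rr _ a2 (by omega) (by omega) (by omega), if_neg (by omega), rho_ebN]
        exact ⟨_, rfl⟩
      · rw [a3, rho_ebS]; exact ⟨_, rfl⟩
  · push_cast at hj
    obtain ⟨d1, -, h1⟩ := hx.d (j + 1) (by omega)
    have h2 : (x (j - 1)).2.1 = nil := by
      by_cases a1 : n + 2 + τ - m < j - 1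
      · obtain ⟨d, -, hd⟩ := hx.d _ a1; rw [hd]
      · by_cases a2 : j - 1 = n + 2 + τ - m
        · rw [a2, he]
        · rw [show j - 1 = n + 2 + τ - m - 1 by omega, hf]
    have h3 : ∃ d, SP d ∧ (x j).1 = (Tp.dat d, false) := by
      by_cases a1 : n + 2 + τ - m < j
      · obtain ⟨d, hd0, hd⟩ := hx.d _ a1; exact ⟨d, hd0, by rw [hd]⟩
      · rw [show j = n + 2 + τ - m by omega, he]; exact ⟨_, hde, rfl⟩
    obtain ⟨d, h0, h3⟩ := h3
    exact ⟨d, h0, by simp only [G, h1, h2, h3, rho_idle]⟩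
  · push_cast
    rw [← sub_sub]
    simp only [G, sub_add_cancel, he, hf, rho_eaR]
    exact ⟨Dat.e2 _ _, trivial, rfl⟩
  · push_cast
    rw [← sub_sub]
    simp only [G, sub_add_cancel, hf]
    rw [(hx.hh _ (by omega) (by omega)).1, rho_ebR]
    exact ⟨_, rfl⟩
  · push_cast at h1
    simp only [G, (hx.g j (by omega) h2).1, (hx.g (j - 1) (by omega) (by omega)).2, rho_h, and_self]
  · push_cast at h2
    have a1 : (x (j - 1)).2.1 ≠ mv := by
      by_cases a2 : j - 1 = n + 2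
      · rw [a2]; exact hx.i.2.1
      · exact (hx.hh (j - 1) (by omega) (by omega)).2.1
    simp only [G, (hx.hh j h1 (by omega)).1, (hx.hh (j + 1) (by omega) (by omega)).2.2]
    push_cast
    by_cases a2 : j + 1 - (n + 2) + m ≤ t1
    · rw [if_pos a2, if_pos (by omega), rho_ha _ a1]; exact ⟨rfl, a1, rfl⟩
    · rw [if_neg a2, if_neg (by omega), rho_hb _ a1]; exact ⟨rfl, a1, rfl⟩
  · have e : (n : ℤ) + 2 - 1 = n + 1 := by ring
    simp only [G, hx.i.1, e, (hx.hh (n + 2 + 1) (by omega) (by omega)).2.2]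
    by_cases a2 : m + 1 ≤ t1
    · have a3 := (hx.j (by omega)).2
      rw [if_pos (by omega), if_pos a2, rho_conv _ a3]; exact ⟨rfl, a3, rfl⟩
    · rw [if_neg (by omega), if_neg a2,
        (hx.kk (by omega) (n + 1) (by omega) (by omega) (by omega)).2.1, rho_convH]
      simp
  · have e : (n : ℤ) + 1 + 1 = n + 2 := by ring
    simp only [G, (hx.j (by omega)).1, e, hx.i.2.2]
    rw [if_pos (by omega)]
    exact rho_z _
  · by_cases a0 : m + 1 = t1
    · obtain ⟨a1, a2, a3⟩ := hT a0 j h2 (by omega)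
      refine ⟨a1, a2, ?_⟩
      rw [a3, if_pos (by push_cast; omega)]
    · have a1 : t1 ≤ m := by omega
      push_cast at h4
      have a2 : (x (j - 1)).2.1 = h := by
        by_cases a3 : j - 1 < -n
        · exact (hx.g (j - 1) (by omega) a3).2
        · exact (hx.kk a1 (j - 1) (by omega) (by omega) (by omega)).2.1
      have a3 := rr (j + 1) a1 (by omega) (by omega) (by omega)
      simp only [G, a2, a3]
      push_cast
      rcases (hx.kk a1 j h2 h3 (by omega)).1 with a4 | a4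
      · rw [a4]
        by_cases a5 : (m : ℤ) - (n + 2 - (j + 1)) ≤ t1
        · rw [if_pos a5, if_pos (by omega), rho_zK]; simp
        · rw [if_neg a5, if_neg (by omega), rho_zH]; simp
      · rw [a4, rho_h]
        by_cases a5 : (m : ℤ) - (n + 2 - (j + 1)) ≤ t1
        · rw [if_pos a5, if_pos (by omega)]; simp
        · rw [if_neg a5, if_neg (by omega)]; simp

theorem IB_zero (u : ℤ → T) {n t1 τ : ℕ} (hτ : t1 + 4 * n + 6 ≤ τ)
    (hT : 0 = t1 → Term n (YT u n t1 τ)) : IB n t1 τ 0 (YT u n t1 τ) := by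
  refine ⟨fun j hj => ?_, ?_, ?_, fun j hj => ?_, ?_, ?_, fun j h1 h2 => ?_, fun j h1 h2 => ?_,
    ?_, fun h1 => ?_, fun h1 j h2 h3 h4 => ?_⟩
  · refine ⟨Dat.blank, ?_⟩
    unfold YT; rw [if_pos (by omega)]
  · refine ⟨Dat.blank, ?_⟩
    unfold YT; rw [if_neg (by omega), if_pos (by omega)]
  · refine ⟨some nil, ?_⟩
    unfold YT; rw [if_neg (by omega), if_neg (by omega), if_pos (by omega)]
  · refine ⟨Dat.blank, trivial, ?_⟩
    unfold YT; repeat (first | rw [if_pos (by omega)] | rw [if_neg (by omega)])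
  · refine ⟨Dat.blank, trivial, ?_⟩
    unfold YT; repeat (first | rw [if_pos (by omega)] | rw [if_neg (by omega)])
  · refine ⟨nil, ?_⟩
    unfold YT; repeat (first | rw [if_pos (by omega)] | rw [if_neg (by omega)])
  · unfold YT; repeat (first | rw [if_pos (by omega)] | rw [if_neg (by omega)])
    exact ⟨rfl, rfl⟩
  · have e : YT u n t1 τ j = ((Tp.r2, false), nil, if j - (n + 2) ≤ t1 then ha else hb) := by
      unfold YT
      rw [if_neg (by omega), if_neg (by omega), if_neg (by omega), if_neg (by omega),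
        if_neg (by omega), if_neg (by omega), if_neg (by omega), if_pos (by omega)]
    rw [e]; simp
  · have e : YT u n t1 τ (n + 2) = ((Tp.conv, false), nil, k) := by
      unfold YT; repeat (first | rw [if_pos (by omega)] | rw [if_neg (by omega)])
    rw [e]; simp
  · have e : YT u n t1 τ (n + 1) = ((z, false), nil, k) := by
      unfold YT; repeat (first | rw [if_pos (by omega)] | rw [if_neg (by omega)])
    rw [e]; simp
  · obtain ⟨a1, a2, a3⟩ := hT (by omega) j h2 (by omega)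
    refine ⟨a1, a2, ?_⟩
    rw [a3, if_pos (by push_cast; omega)]

theorem construct (u : ℤ → T) (n : ℕ) : ∃ (τ : ℕ) (Z : ℤ → Dat), (∀ j : ℤ, n + 2 < j → SP (Z j)) ∧
    ∀ j : ℤ, -n ≤ j → j ≤ n →
      F^[τ] (fun j => ((Tp.dat (Z j), false), if j = n + 2 then st else nil, nil)) j = u j := by
  obtain ⟨t1, ht1⟩ := tame u n
  obtain ⟨τ, hτ⟩ : ∃ τ, τ = t1 + 4 * n + 6 := ⟨_, rfl⟩
  have hterm : Term n (G^[t1] (YT u n t1 τ)) := by
    intro j h1 h2
    rw [G_cone t1 (YT u n t1 τ) (Y u n) (-n) (n + 1) ?_ j h1 h2]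
    · exact ht1 j h1 h2
    · intro j a1 a2
      unfold YT Y
      rw [if_neg (by omega), if_neg (by omega), if_neg (by omega)]
      by_cases b1 : j < -n
      · rw [if_pos b1, if_pos b1]
      rw [if_neg b1, if_neg b1]
      by_cases b2 : j ≤ n
      · rw [if_pos b2, if_pos b2]
      rw [if_neg b2, if_neg b2]
      by_cases b3 : j = n + 1
      · rw [if_pos b3, if_pos b3]
      rw [if_neg b3, if_neg b3]
      by_cases b4 : j = n + 2
      · rw [if_pos b4, if_pos b4]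
      rw [if_neg b4, if_neg b4, if_pos (by omega), if_pos (by omega)]
  have hI : ∀ m, m + 2 ≤ τ → IB n t1 τ m (G^[m] (YT u n t1 τ)) := by
    intro m
    induction m with
    | zero => intro _; exact IB_zero u hτ.ge (fun h0 => by subst h0; exact hterm)
    | succ m ih =>
      intro hm
      rw [Function.iterate_succ_apply']
      refine (ih (by omega)).step hτ.ge (by omega) (fun h0 => ?_)
      rw [← Function.iterate_succ_apply' G]
      subst h0; exact hterm
  obtain ⟨σ, rfl⟩ : ∃ σ, τ = σ + 1 + 1 := ⟨τ - 2, by omega⟩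
  have h1 := hI σ (by omega)
  set y := G^[σ] (YT u n t1 (σ + 1 + 1)) with hy
  obtain ⟨db, hb⟩ := h1.b
  obtain ⟨oc, hc⟩ := h1.c
  obtain ⟨de, hde, he⟩ := h1.e
  obtain ⟨sf, hf⟩ := h1.f
  have ha := h1.a
  have hd := h1.d
  have e1 : (n : ℤ) + 2 - ((σ + 1 + 1 : ℕ) : ℤ) + σ = n := by push_cast; ring
  have e2 : (n : ℤ) + 2 + ((σ + 1 + 1 : ℕ) : ℤ) - σ = n + 4 := by push_cast; ring
  rw [e1] at ha hb hc
  rw [e2] at hd he hf
  rw [show (n : ℤ) + 4 - 1 = n + 3 by ring] at hf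
  have g1 : ∀ j : ℤ, j ≤ n → ∃ d, G y j = ((Tp.dat d, false), nil, nil) := by
    intro j hj
    obtain ⟨d1, a1⟩ := ha (j - 1) (by omega)
    have a2 : (y (j + 1)).2.2 = nil := by
      by_cases b1 : j + 1 < n
      · obtain ⟨d, hd⟩ := ha _ b1; rw [hd]
      · by_cases b2 : j + 1 = n
        · rw [b2, hb]
        · rw [show j + 1 = n + 1 by omega, hc]
    have a3 : ∃ d, (y j).1 = (Tp.dat d, false) := by
      by_cases b1 : j < n
      · obtain ⟨d, hd⟩ := ha _ b1; exact ⟨d, by rw [hd]⟩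
      · rw [show j = n by omega, hb]; exact ⟨_, rfl⟩
    obtain ⟨d, a3⟩ := a3
    exact ⟨d, by simp only [G, a1, a2, a3, rho_idle]⟩
  have g2 : ∃ d, G y (n + 1) = ((Tp.dat d, false), ea, nil) := by
    simp only [G, add_sub_cancel_right, hb, hc, rho_eaL]
    exact ⟨_, rfl⟩
  have g3 : G y (n + 2) = ((Tp.s1, false), nil, nil) := by
    simp only [G, h1.i.1, show (n : ℤ) + 2 - 1 = n + 1 by ring, show (n : ℤ) + 2 + 1 = n + 3 by ring,
      hc, hf, rho_s1]
  have g4 : ∃ d, SP d ∧ G y (n + 3) = ((Tp.dat d, false), nil, ea) := by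
    simp only [G, show (n : ℤ) + 3 + 1 = n + 4 by ring, he, hf, rho_eaR]
    exact ⟨Dat.e2 _ _, trivial, rfl⟩
  have g5 : ∀ j : ℤ, n + 4 ≤ j → ∃ d, SP d ∧ G y j = ((Tp.dat d, false), nil, nil) := by
    intro j hj
    obtain ⟨d1, -, a1⟩ := hd (j + 1) (by omega)
    have a2 : (y (j - 1)).2.1 = nil := by
      by_cases b1 : n + 4 < j - 1
      · obtain ⟨d, -, hd⟩ := hd _ b1; rw [hd]
      · by_cases b2 : j - 1 = n + 4
        · rw [b2, he]
        · rw [show j - 1 = n + 3 by omega, hf]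
    have a3 : ∃ d, SP d ∧ (y j).1 = (Tp.dat d, false) := by
      by_cases b1 : n + 4 < j
      · obtain ⟨d, hd0, hd⟩ := hd _ b1; exact ⟨d, hd0, by rw [hd]⟩
      · rw [show j = n + 4 by omega, he]; exact ⟨_, hde, rfl⟩
    obtain ⟨d, a0, a3⟩ := a3
    exact ⟨d, a0, by simp only [G, a1, a2, a3, rho_idle]⟩
  obtain ⟨d2, g2⟩ := g2
  obtain ⟨d4, g40, g4⟩ := g4
  have fin : ∀ j : ℤ, ∃ d, (n + 2 < j → SP d) ∧
      G (G y) j = ((Tp.dat d, false), if j = n + 2 then st else nil, nil) := by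
    intro j
    generalize G y = w at g1 g2 g3 g4 g5
    rcases lt_trichotomy j (n + 2) with hj | hj | hj
    · obtain ⟨d1, a1⟩ := g1 (j - 1) (by omega)
      have a2 : (w (j + 1)).2.2 = nil := by
        by_cases b1 : j + 1 ≤ n
        · obtain ⟨d, hd⟩ := g1 _ b1; rw [hd]
        · by_cases b2 : j + 1 = n + 1
          · rw [b2, g2]
          · rw [show j + 1 = n + 2 by omega, g3]
      have a3 : ∃ d, (w j).1 = (Tp.dat d, false) := by
        by_cases b1 : j ≤ n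
        · obtain ⟨d, hd⟩ := g1 _ b1; exact ⟨d, by rw [hd]⟩
        · rw [show j = n + 1 by omega, g2]; exact ⟨_, rfl⟩
      obtain ⟨d, a3⟩ := a3
      exact ⟨d, fun _ => by omega, by simp only [G, a1, a2, a3, rho_idle, if_neg hj.ne]⟩
    · subst hj
      refine ⟨Dat.s0, fun _ => by omega, ?_⟩
      simp only [G, show (n : ℤ) + 2 - 1 = n + 1 by ring, show (n : ℤ) + 2 + 1 = n + 3 by ring,
        g2, g3, g4, rho_stGo, if_true]
    · obtain ⟨d1, -, a1⟩ := g5 (j + 1) (by omega)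
      have a2 : (w (j - 1)).2.1 = nil := by
        by_cases b1 : n + 4 ≤ j - 1
        · obtain ⟨d, -, hd⟩ := g5 _ b1; rw [hd]
        · by_cases b2 : j - 1 = n + 3
          · rw [b2, g4]
          · rw [show j - 1 = n + 2 by omega, g3]
      have a3 : ∃ d, SP d ∧ (w j).1 = (Tp.dat d, false) := by
        by_cases b1 : n + 4 ≤ j
        · obtain ⟨d, hd0, hd⟩ := g5 _ b1; exact ⟨d, hd0, by rw [hd]⟩
        · rw [show j = n + 3 by omega, g4]; exact ⟨_, g40, rfl⟩
      obtain ⟨d, a0, a3⟩ := a3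
      exact ⟨d, fun _ => a0, by simp only [G, a1, a2, a3, rho_idle, if_neg hj.ne']⟩
  choose Z hZ1 hZ2 using fin
  refine ⟨σ + 1 + 1, Z, hZ1, fun j a1 a2 => ?_⟩
  have : (fun j : ℤ => (((Tp.dat (Z j), false), if j = n + 2 then st else nil, nil) : T)) =
      G^[σ + 1 + 1] (YT u n t1 (σ + 1 + 1)) := by
    funext j
    rw [Function.iterate_succ_apply', Function.iterate_succ_apply', ← hy, hZ2]
  rw [this, F_G_iter]
  unfold YT
  rw [if_neg (by omega), if_neg (by omega), if_neg (by omega), if_neg (by omega), if_pos a2]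

end Pool.Agent.H130Z.UPG
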