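import Pool.Agent.H130Z.UPG.Ctrl
import Pool.Agent.H130Z.UPG.Tame

set_option autoImplicit false

namespace Pool.Agent.H130Z.UPG

open Sg

noncomputable def exec (l : List Bool) (s : ℤ × (ℤ → Dat)) : ℤ × (ℤ → Dat) :=
  l.foldl (fun s ins => stp ins s) s

theorem exec_append (l l' : List Bool) (s : ℤ × (ℤ → Dat)) :
    exec (l ++ l') s = exec l' (exec l s) := by simp [exec]

theorem run_eq (prog : List Bool) (N : ℕ) (s : ℤ × (ℤ → Dat))
    (hb : ∀ n (hn : n < prog.length), N.testBit (prog.length - 1 - n) = prog[n]) :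
    ∀ n ≤ prog.length, run prog.length N s n = exec (prog.take n) s := by
  intro n
  induction n with
  | zero => intro _; simp [run, exec]
  | succ n ih =>
    intro hn
    rw [run, ih (by omega), hb n (by omega), List.take_succ_eq_append_getElem (by omega), exec_append]
    simp [exec]

theorem exec_M (k : ℕ) (i : ℤ) (D : ℤ → Dat) : (exec (List.replicate k false) (i, D)).1 = i - k ∧
    ∀ j, (exec (List.replicate k false) (i, D)).2 j =
      if i - k < j ∧ j ≤ i then Dat.blank else D j := by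
  induction k with
  | zero =>
    refine ⟨by simp [exec], fun j => ?_⟩
    rw [if_neg (by omega)]; simp [exec]
  | succ k ih =>
    rw [List.replicate_succ', exec_append]
    obtain ⟨h1, h2⟩ := ih
    generalize exec (List.replicate k false) (i, D) = s at h1 h2
    simp only [exec, List.foldl, stp, h1]
    refine ⟨by push_cast; ring, fun j => ?_⟩
    by_cases hj : j = i - k
    · subst hj; rw [Function.update_self, if_pos (by omega)]
    · rw [Function.update_of_ne hj, h2]
      by_cases h3 : i - k < j ∧ j ≤ i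
      · rw [if_pos h3, if_pos (by omega)]
      · rw [if_neg h3, if_neg (by omega)]

theorem exec_I (k : ℕ) (i : ℤ) (D : ℤ → Dat) : exec (List.replicate k true) (i, D) =
    (i, Function.update D (i + 1) (sc^[k] (D (i + 1)))) := by
  induction k with
  | zero => simp [exec]
  | succ k ih =>
    rw [List.replicate_succ', exec_append, ih]
    simp [exec, stp, Function.iterate_succ_apply']

theorem write (Z : ℤ → Dat) (b : ℤ) (len : ℕ) : ∃ prog : List Bool, ∀ D,
    (exec prog (b, D)).1 = b - len ∧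
      ∀ j, (exec prog (b, D)).2 j = if b - len < j ∧ j ≤ b then Z j else D j := by
  induction len with
  | zero =>
    refine ⟨[], fun D => ⟨by simp [exec], fun j => ?_⟩⟩
    rw [if_neg (by omega)]; simp [exec]
  | succ len ih =>
    obtain ⟨prog, hp⟩ := ih
    obtain ⟨k, hk⟩ := sc_reach Dat.blank (Z (b - len))
    refine ⟨prog ++ [false] ++ List.replicate k true, fun D => ?_⟩
    obtain ⟨h1, h2⟩ := hp D
    rw [exec_append, exec_append]
    generalize exec prog (b, D) = s at h1 h2
    have e : exec [false] s = (b - len - 1, Function.update s.2 (b - len) Dat.blank) := by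
      simp [exec, stp, h1]
    rw [e, exec_I]
    refine ⟨by push_cast; ring, fun j => ?_⟩
    simp only [sub_add_cancel, Function.update_self, hk, Function.update_idem]
    by_cases hj : j = b - len
    · subst hj; rw [Function.update_self, if_pos (by omega)]
    · rw [Function.update_of_ne hj, h2]
      by_cases h3 : b - len < j ∧ j ≤ b
      · rw [if_pos h3, if_pos (by omega)]
      · rw [if_neg h3, if_neg (by omega)]

theorem phase {h i : ℤ} {L : ℕ} {x : ℤ → T} (hx : RS h L 0 i x) (hL : 1 ≤ L) :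
    (∀ N, 1 ≤ N → N < 2 ^ L → R x (RS h L N h)) ∧ R x (RS (h + 1) (L + 2) 0 h) := by
  have h1 : ∀ N, N < 2 ^ L → R x (fun y => ∃ i', RS h L N i' y ∧ (1 ≤ N → i' = h)) := by
    intro N
    induction N with
    | zero => intro _; exact R.refl ⟨i, hx, by omega⟩
    | succ N ih =>
      intro hN
      refine (ih (by omega)).trans (fun y ⟨i', hy, _⟩ => ?_)
      obtain ⟨D, hD⟩ := round hy (by omega) hL
      refine hD.trans (fun y' hy' => ?_)
      have := hy'.2.2
      rw [if_pos hN] at this
      exact this.trans (fun y'' hy'' => R.refl ⟨h, hy'', fun _ => rfl⟩)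
  refine ⟨fun N a1 a2 => (h1 N a2).trans (fun y ⟨i', hy, hi⟩ => R.refl (hi a1 ▸ hy)), ?_⟩
  have hp : 0 < 2 ^ L := Nat.two_pow_pos L
  refine (h1 (2 ^ L - 1) (by omega)).trans (fun y ⟨i', hy, _⟩ => ?_)
  obtain ⟨D, hD⟩ := round hy (by omega) hL
  refine hD.trans (fun y' hy' => ?_)
  have := hy'.2.2
  rwa [if_neg (by omega)] at this

/-- The initial finite configuration. -/
def x0 : ℤ → T := fun j =>
  if j = 0 then ((z, true), nil, nil) else if j = 1 then ((Tp.m false false, false), go false, nil)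
  else if j = 2 then ((Tp.fin, false), nil, nil) else ((z, false), nil, nil)

theorem RS_x0 : RS 0 1 0 0 x0 := by
  refine ⟨le_rfl, z, fun _ => Dat.blank, ?_, ?_, ?_, by simp, by simp, ?_, ?_, ?_, ?_⟩
  · simp [x0]
  · intro j hj
    simp only [x0, tp, bit, Nat.zero_testBit]
    split_ifs <;> first | rfl | omega
  · intro j hj
    simp only [tp]
    split_ifs
    · exact Q_dat _
    · exact Q_m _ _
    · exact Q_fin
    · exact Q_dat _
  · intro j hj
    simp only [x0]
    split_ifs <;> first | rfl | omega | simp_all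
  · intro j h1 h2; omega
  · intro _; simp [x0]
  · intro j hj
    left
    simp only [x0]
    split_ifs <;> rfl

theorem reach_phase (s : ℕ) : R x0 (fun y => ∃ i, RS s (1 + 2 * s) 0 i y) := by
  induction s with
  | zero => exact R.refl ⟨0, RS_x0⟩
  | succ s ih =>
    refine ih.trans (fun y ⟨i, hy⟩ => ((phase hy (by omega)).2.trans (fun y' hy' => R.refl ⟨s, ?_⟩)))
    have e : 1 + 2 * (s + 1) = 1 + 2 * s + 2 := by ring
    rw [e]; push_cast; exact hy'

theorem dense (u : ℤ → T) (n : ℕ) : R x0 (fun y => ∀ j : ℤ, -n ≤ j → j ≤ n → y j = u j) := by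
  obtain ⟨τ, Z, hZ, hF⟩ := construct u n
  obtain ⟨prog1, hp⟩ := write Z (n + 2 + τ) (2 * n + 2 * τ + 4)
  obtain ⟨s, hs⟩ : ∃ s : ℕ, s = n + 3 + τ + prog1.length := ⟨_, rfl⟩
  obtain ⟨prog, hprog⟩ : ∃ prog, prog = List.replicate 1 true ++ List.replicate prog1.length false ++
    prog1 ++ List.replicate (2 * (n + 3 + τ)) false := ⟨_, rfl⟩
  have hlen : prog.length = 1 + 2 * s := by simp [hprog, hs]; ring
  let N := Nat.ofBits (fun j : Fin prog.length => prog[prog.length - 1 - j]'(by omega))
  have hN : N < 2 ^ prog.length := Nat.ofBits_lt_two_pow _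
  have hb : ∀ m (hm : m < prog.length), N.testBit (prog.length - 1 - m) = prog[m] := by
    intro m hm
    rw [Nat.testBit_ofBits_lt _ _ (by omega)]
    congr 1
    simp only
    omega
  have hN1 : 1 ≤ N := by
    by_contra h0
    have h1 : N = 0 := by omega
    have h2 := hb 0 (by omega)
    rw [h1] at h2
    simp [hprog] at h2
  refine (reach_phase s).trans (fun y ⟨i, hy⟩ => ?_)
  rw [← hlen] at hy
  refine ((phase hy (by omega)).1 N hN1 hN).trans (fun y hy => ?_)
  obtain ⟨D, hD⟩ := round hy hN (by omega)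
  refine hD.trans (fun y ⟨h1, h2, _⟩ => ?_)
  rw [run_eq prog N _ hb _ le_rfl, List.take_length] at h1
  have key : (exec prog (stp false ((s : ℤ), D))).1 < -n - τ - 1 ∧
      (∀ j : ℤ, -n - τ ≤ j → j ≤ n + 2 + τ → (exec prog (stp false ((s : ℤ), D))).2 j = Z j) ∧
      (∀ j : ℤ, n + 2 + τ < j → j < s → (exec prog (stp false ((s : ℤ), D))).2 j = Dat.blank) := by
    rw [hprog, exec_append, exec_append, exec_append]
    simp only [stp]
    rw [exec_I]
    generalize Function.update (Function.update D (s : ℤ) Dat.blank) _ _ = D1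
    obtain ⟨a1, a2⟩ := exec_M prog1.length ((s : ℤ) - 1) D1
    generalize exec (List.replicate prog1.length false) ((s : ℤ) - 1, D1) = s1 at a1 a2
    obtain ⟨i1, D2⟩ := s1
    simp only at a1 a2
    have e1 : i1 = n + 2 + τ := by rw [a1, hs]; push_cast; ring
    rw [e1]
    obtain ⟨b1, b2⟩ := hp D2
    generalize exec prog1 ((n : ℤ) + 2 + τ, D2) = s2 at b1 b2
    obtain ⟨i2, D3⟩ := s2
    simp only at b1 b2
    obtain ⟨c1, c2⟩ := exec_M (2 * (n + 3 + τ)) i2 D3
    refine ⟨by rw [c1, b1]; push_cast; omega, fun j d1 d2 => ?_, fun j d1 d2 => ?_⟩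
    · rw [c2, if_neg (by omega), b2, if_pos (by omega)]
    · rw [c2, if_neg (by omega), b2, if_neg (by omega), a2, if_pos (by omega)]
  generalize exec prog (stp false ((s : ℤ), D)) = s3 at h1 key
  obtain ⟨k1, k2, k3⟩ := key
  have h3 := h1 (by omega)
  have h4 : ∀ m : ℕ, (m : ℤ) ≤ s - 1 - (n + 2) → Lab (F^[m] y) s3.1 s s3.2 (s - 1 - m) := by
    intro m
    induction m with
    | zero => intro _; simpa using h3
    | succ m ih =>
      intro hm
      push_cast at hm ⊢
      rw [Function.iterate_succ_apply', ← sub_sub]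
      refine (ih (by omega)).step (by omega) (by omega) ?_ (h2 m (by omega)).1 (h2 m (by omega)).2
      by_cases hj : (s : ℤ) - 1 - m ≤ n + 2 + τ
      · rw [k2 _ (by omega) hj]; exact hZ _ (by omega)
      · rw [k3 _ (by omega) (by omega)]; trivial
  have h5 := h4 (s - 1 - (n + 2)) (by omega)
  have e : (s : ℤ) - 1 - ((s - 1 - (n + 2) : ℕ) : ℤ) = n + 2 := by omega
  rw [e] at h5
  apply R.iter (s - 1 - (n + 2))
  refine ⟨τ, fun j a1 a2 => ?_⟩
  rw [← hF j a1 a2]
  refine F_cone τ _ _ (-n) n (fun j b1 b2 => ?_) j a1 a2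
  rw [h5.cell j (by omega) (by omega), k2 j b1 (by omega)]

theorem main : ∃ (S : Type) (_ : Fintype S) (o : S), Nontrivial S ∧
    ∃ (r : ℕ) (f : (Fin (2 * r + 1) → S) → S) (Φ : (ℤ → S) → (ℤ → S)),
      (∀ (y : ℤ → S) (i : ℤ), Φ y i = f (fun k => y (i - r + (k : ℕ)))) ∧
      f (fun _ => o) = o ∧ Function.Bijective Φ ∧
      ∃ x : ℤ → S, {i | x i ≠ o}.Finite ∧
        ∀ (w : List S) (i : ℤ), ∃ n : ℕ, ∀ j : Fin w.length, Φ^[n] x (i + (j : ℕ)) = w.get j := by
  refine ⟨T, inferInstance, ((z, false), nil, nil), ⟨⟨((z, false), nil, nil), ((z, true), nil, nil),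
    by simp⟩⟩, 1, fun w => ((pi (w 1)).1, (pi (w 2)).2.1, (pi (w 0)).2.2), F, ?_, ?_, ?_, x0, ?_, ?_⟩
  · intro y i
    have e1 : i - ((1 : ℕ) : ℤ) + (((1 : Fin (2 * 1 + 1)) : ℕ) : ℤ) = i := by simp
    have e2 : i - ((1 : ℕ) : ℤ) + (((2 : Fin (2 * 1 + 1)) : ℕ) : ℤ) = i + 1 := by simp; ring
    have e0 : i - ((1 : ℕ) : ℤ) + (((0 : Fin (2 * 1 + 1)) : ℕ) : ℤ) = i - 1 := by simp
    simp only [F, e0, e1, e2]
  · have : pi ((z, false), nil, nil) = ((z, false), nil, nil) := pi_rl (Rl.idle z) (Q_dat _)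
    simp only [this]
  · exact Function.bijective_iff_has_inverse.2 ⟨G, G_F, F_G⟩
  · refine (Set.toFinite ({0, 1, 2} : Set ℤ)).subset (fun j hj => ?_)
    by_contra h
    simp only [Set.mem_insert_iff, Set.mem_singleton_iff, not_or] at h
    simp [x0, h.1, h.2.1, h.2.2] at hj
  · intro w i
    obtain ⟨m, hm⟩ := dense (fun j => w.getD (j - i).toNat ((z, false), nil, nil)) (i.natAbs + w.length)
    refine ⟨m, fun j => ?_⟩
    have := j.2
    rw [hm _ (by omega) (by omega)]
    simp

end Pool.Agent.H130Z.UPG
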