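import Mathlib

set_option autoImplicit false

namespace Pool.Agent.H130Z.UPG

/-- Signals travelling on the left-moving and right-moving tracks. -/
inductive Sg : Type
  | nil | mv | pre | q | h | k | ha | hb | ea | eb | st
  | x (i : Fin 10)
  | go (ins : Bool)
  | fetch | toF | incNow
  | c1 (t : Bool)
  | dec | dec2
  | ack (t : Option Bool)
  | back (c : Bool)
  | wait (c : Bool)
  | w0 | y1 | y2 | y3
  | g (t : Option (Option Bool))
  deriving DecidableEq, Fintype

/-- Data symbols, which the controller can write. -/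
inductive Dat : Type
  | blank | s0
  | d2 (a : Sg) (o : Option Sg)
  | e2 (a b : Sg)
  deriving DecidableEq, Fintype

/-- Tape symbols without the wall bit. -/
inductive Tp : Type
  | dat (d : Dat)
  | s1
  | d1 (o : Option Sg)
  | e1 (a : Sg)
  | r | r2 | conv
  | mem (a : Sg)
  | mem2 (a b : Sg)
  | mem3 (a b : Sg)
  | m (ins dn : Bool)
  | fin
  deriving DecidableEq, Fintype

abbrev z : Tp := Tp.dat Dat.blank

abbrev A : Type := Tp × Bool

abbrev T : Type := A × Sg × Sg

theorem exists_pred {α : Type} [Fintype α] (z : α) (cls : α → ℕ)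
    (hz : ∀ a, a ≠ z → cls z < cls a) :
    ∃ (rk : α → ℕ) (p : α → α), (∀ a, a ≠ z → rk (p a) < rk a) ∧
      (∀ a b, a ≠ z → b ≠ z → p a = p b → a = b) ∧ (∀ a b, cls a < cls b → rk a < rk b) := by
  classical
  let code : α → ℕ := fun a => (Fintype.equivFin α a : ℕ)
  have hcode : Function.Injective code := fun a b hab =>
    (Fintype.equivFin α).injective (Fin.ext hab)
  let key : α → ℕ ×ₗ ℕ := fun a => toLex (cls a, code a)
  have hkey : Function.Injective key := fun a b hab => hcode (by
    have := congrArg (fun p => (ofLex p).2) hab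
    simpa [key] using this)
  let _ : LinearOrder α := LinearOrder.lift' key hkey
  let e : Fin (Fintype.card α) ≃o α := monoEquivOfFin α rfl
  have hlt : ∀ a b : α, cls a < cls b → a < b := by
    intro a b hab
    show key a < key b
    simp only [key, Prod.Lex.toLex_lt_toLex]
    exact Or.inl hab
  have hpos : ∀ a, a ≠ z → 0 < ((e.symm a : Fin _) : ℕ) := by
    intro a ha
    have h1 : e.symm z < e.symm a := e.symm.strictMono (hlt _ _ (hz a ha))
    have : ((e.symm z : Fin _) : ℕ) < ((e.symm a : Fin _) : ℕ) := h1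
    omega
  refine ⟨fun a => (e.symm a : ℕ),
    fun a => e ⟨(e.symm a : ℕ) - 1, lt_of_le_of_lt (Nat.sub_le _ _) (e.symm a).2⟩, ?_, ?_, ?_⟩
  · intro a ha
    have := hpos a ha
    simp only [OrderIso.symm_apply_apply]
    omega
  · intro a b ha hb hab
    have h1 := hpos a ha
    have h2 := hpos b hb
    have h3 := e.injective hab
    have h4 : ((e.symm a : Fin _) : ℕ) - 1 = ((e.symm b : Fin _) : ℕ) - 1 := by
      simpa using congrArg Fin.val h3
    apply e.symm.injective
    apply Fin.ext
    omega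
  · intro a b hab
    exact e.symm.strictMono (hlt _ _ hab)

def clsA : A → ℕ
  | (Tp.dat Dat.blank, false) => 0
  | (Tp.r, false) => 3
  | (Tp.d1 _, false) => 2
  | _ => 1

def clsB : Tp → ℕ
  | Tp.dat Dat.blank => 0
  | Tp.s1 => 2
  | Tp.mem _ => 2
  | Tp.mem2 _ _ => 2
  | _ => 1

/-- Ordinary tape symbols, which stay unchanged when no signal visits them. -/
def Q (b : Tp) : Prop := clsB b ≤ 1

theorem clsA_pos (a : A) (ha : a ≠ (z, false)) : clsA (z, false) < clsA a := by
  rcases a with ⟨b, c⟩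
  cases c <;> cases b <;> first | (rename_i d; cases d <;> simp_all [clsA]) | simp [clsA]

theorem clsB_pos (a : Tp) (ha : a ≠ z) : clsB z < clsB a := by
  cases a <;> first | (rename_i d; cases d <;> simp_all [clsB]) | simp [clsB]

noncomputable def rkA : A → ℕ := (exists_pred (z, false) clsA clsA_pos).choose
noncomputable def pA : A → A := (exists_pred (z, false) clsA clsA_pos).choose_spec.choose
noncomputable def rkB : Tp → ℕ := (exists_pred z clsB clsB_pos).choose
noncomputable def pB : Tp → Tp := (exists_pred z clsB clsB_pos).choose_spec.choose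

theorem pA_lt (a : A) (ha : a ≠ (z, false)) : rkA (pA a) < rkA a :=
  (exists_pred (z, false) clsA clsA_pos).choose_spec.choose_spec.1 a ha
theorem pA_inj (a b : A) (ha : a ≠ (z, false)) (hb : b ≠ (z, false)) (h : pA a = pA b) : a = b :=
  (exists_pred (z, false) clsA clsA_pos).choose_spec.choose_spec.2.1 a b ha hb h
theorem rkA_cls (a b : A) (h : clsA a < clsA b) : rkA a < rkA b :=
  (exists_pred (z, false) clsA clsA_pos).choose_spec.choose_spec.2.2 a b h
theorem pB_lt (a : Tp) (ha : a ≠ z) : rkB (pB a) < rkB a :=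
  (exists_pred z clsB clsB_pos).choose_spec.choose_spec.1 a ha
theorem pB_inj (a b : Tp) (ha : a ≠ z) (hb : b ≠ z) (h : pB a = pB b) : a = b :=
  (exists_pred z clsB clsB_pos).choose_spec.choose_spec.2.1 a b ha hb h
theorem rkB_cls (a b : Tp) (h : clsB a < clsB b) : rkB a < rkB b :=
  (exists_pred z clsB clsB_pos).choose_spec.choose_spec.2.2 a b h

theorem pB_Q (b : Tp) (hb : b ≠ z) (h1 : Q b) : Q (pB b) := by
  by_contra h
  have h2 := pB_lt b hb
  have h3 : rkB b < rkB (pB b) := by
    apply rkB_cls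
    unfold Q at h h1
    omega
  omega

theorem Q_dat (d : Dat) : Q (Tp.dat d) := by cases d <;> simp [Q, clsB]
theorem Q_m (a b : Bool) : Q (Tp.m a b) := by simp [Q, clsB]
theorem Q_fin : Q Tp.fin := by simp [Q, clsB]
theorem Q_mem3 (a b : Sg) : Q (Tp.mem3 a b) := by simp [Q, clsB]
theorem nQ_s1 : ¬ Q Tp.s1 := by simp [Q, clsB]
theorem nQ_mem (a : Sg) : ¬ Q (Tp.mem a) := by simp [Q, clsB]
theorem nQ_mem2 (a b : Sg) : ¬ Q (Tp.mem2 a b) := by simp [Q, clsB]

theorem exists_enc : ∃ e : Sg → Fin 10 × Fin 10, Function.Injective e := by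
  have h : Fintype.card Sg ≤ Fintype.card (Fin 10 × Fin 10) := by
    have : Fintype.card Sg = 45 := by decide
    rw [this]; simp
  obtain ⟨e⟩ := Function.Embedding.nonempty_of_card_le h
  exact ⟨e, e.injective⟩

noncomputable def enc : Sg → Fin 10 × Fin 10 := exists_enc.choose
theorem enc_inj : Function.Injective enc := exists_enc.choose_spec

theorem exists_succ_gen {α : Type} [Fintype α] (a0 : α) :
    ∃ s : α → α, Function.Injective s ∧ ∀ a b, ∃ n, s^[n] a = b := by
  classical
  obtain ⟨n, hn⟩ : ∃ n, Fintype.card α = n + 1 :=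
    Nat.exists_eq_succ_of_ne_zero (Fintype.card_pos_iff.2 ⟨a0⟩).ne'
  obtain ⟨e⟩ : Nonempty (α ≃ ZMod (n + 1)) := ⟨Fintype.equivOfCardEq (by rw [hn, ZMod.card])⟩
  refine ⟨fun d => e.symm (e d + 1), ?_, ?_⟩
  · intro a b hab
    have := e.symm.injective hab
    exact e.injective (add_right_cancel this)
  · intro a b
    have key : ∀ k : ℕ, (fun d => e.symm (e d + 1))^[k] a = e.symm (e a + (k : ZMod (n + 1))) := by
      intro k
      induction k with
      | zero => simp
      | succ k ih =>
        rw [Function.iterate_succ_apply', ih]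
        simp only [Equiv.apply_symm_apply]
        congr 1
        push_cast
        ring
    refine ⟨(e b - e a : ZMod (n + 1)).val, ?_⟩
    rw [key, ZMod.natCast_zmod_val]
    simp

theorem exists_succ : ∃ s : Dat → Dat, Function.Injective s ∧ ∀ a b, ∃ n, s^[n] a = b :=
  exists_succ_gen Dat.blank

noncomputable def sc : Dat → Dat := exists_succ.choose
theorem sc_inj : Function.Injective sc := exists_succ.choose_spec.1
theorem sc_reach (a b : Dat) : ∃ n, sc^[n] a = b := exists_succ.choose_spec.2 a b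

open Sg Tp in
/-- Instances of the local rules. -/
inductive Rl : Type
  | idle (b : Tp) | gpass (b : Tp) (t : Option (Option Bool)) | wall (b : Tp) (s : Sg)
  | move (b : Tp) (c : Bool) (s : Sg) | goPass (b : Tp) (ins : Bool)
  | goI (b : Tp) (s : Sg) | goM (b : Tp) (s : Sg) | incD (d : Dat)
  | c1 (b : Tp) (t : Bool) | decS (b : Tp) (s : Sg) | decZ (s : Sg)
  | ackS (b : Tp) | ackZ | ackM (s t : Sg) (c : Bool) | memS (s t : Sg) | dec2 (b : Tp) (s : Sg)
  | toF (b : Tp) (s : Sg) | fPass (b : Tp) | fTurn (ins : Bool) | fEnd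
  | back (ins c : Bool) | build0 (d : Dat) | build1 (d : Dat) | w0 | wPass (ins c : Bool)
  | wEnd | wExt | y1 | y2 | y3
  | stPass (d : Dat) | stGo | s1 | eaL (s : Sg) (o : Option Sg) | ebS (s : Sg) | ebN
  | hPass (s : Sg) | eaR (s t : Sg) | ebR (s : Sg) | haPass (s : Sg) | hbPass (s : Sg)
  | convK (s : Sg) | convH | zH | kPass (s : Sg) | kPre | wr (a : A) (s : Sg)

/-- Cells the fetching head passes over. -/
def FP : Tp → Prop
  | Tp.dat _ => True
  | Tp.m _ true => True
  | _ => False

/-- Cells the returning head passes over. -/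
def GP : Tp → Prop
  | Tp.dat _ => True
  | Tp.m _ _ => True
  | _ => False

/-- Data cells the start signal passes over. -/
def SP : Dat → Prop
  | Dat.blank => True
  | Dat.e2 _ _ => True
  | _ => False

def ok : Rl → Prop
  | Rl.idle b => Q b
  | Rl.gpass b _ => Q b
  | Rl.c1 b _ => Q b
  | Rl.goPass b _ => GP b
  | Rl.decS b _ => b ≠ z
  | Rl.ackS b => b ≠ z ∧ Q b
  | Rl.fPass b => FP b
  | Rl.stPass d => SP d
  | Rl.haPass s => s ≠ Sg.mv
  | Rl.hbPass s => s ≠ Sg.mv
  | Rl.convK s => s ≠ Sg.mv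
  | Rl.kPass s => s ≠ Sg.mv
  | Rl.wr a s => a ≠ (z, false) ∧ (a, s) ≠ ((Tp.r, false), Sg.h) ∧
      (∀ o, (a, s) ≠ ((Tp.d1 o, false), Sg.ea)) ∧ (a, s) ≠ ((Tp.r, false), Sg.eb)
  | _ => True

open Sg in
noncomputable def inp : Rl → T
  | Rl.idle b => ((b, false), nil, nil)
  | Rl.gpass b t => ((b, false), nil, g t)
  | Rl.wall b s => ((b, true), nil, s)
  | Rl.move b c s => ((b, c), mv, s)
  | Rl.goPass b ins => ((b, false), go ins, nil)
  | Rl.goI b s => ((b, true), go true, s)
  | Rl.goM b s => ((b, true), go false, s)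
  | Rl.incD d => ((Tp.dat d, false), nil, incNow)
  | Rl.c1 b t => ((b, false), nil, c1 t)
  | Rl.decS b s => ((b, true), dec, s)
  | Rl.decZ s => ((z, true), dec, s)
  | Rl.ackS b => ((b, false), nil, ack none)
  | Rl.ackZ => ((z, false), nil, ack none)
  | Rl.ackM s t c => ((Tp.mem2 s t, false), nil, ack (some c))
  | Rl.memS s t => ((Tp.mem s, false), nil, t)
  | Rl.dec2 b s => ((b, true), dec2, s)
  | Rl.toF b s => ((b, true), toF, s)
  | Rl.fPass b => ((b, false), nil, fetch)
  | Rl.fTurn ins => ((Tp.m ins false, false), nil, fetch)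
  | Rl.fEnd => ((Tp.fin, false), nil, fetch)
  | Rl.back ins c => ((Tp.m ins true, false), back c, nil)
  | Rl.build0 d => ((Tp.dat d, false), back false, nil)
  | Rl.build1 d => ((Tp.dat d, false), back true, nil)
  | Rl.w0 => ((Tp.m false false, false), nil, w0)
  | Rl.wPass ins c => ((Tp.m ins false, false), nil, wait c)
  | Rl.wEnd => ((Tp.fin, false), nil, wait false)
  | Rl.wExt => ((Tp.fin, false), nil, wait true)
  | Rl.y1 => ((z, false), nil, y1)
  | Rl.y2 => ((z, false), nil, y2)
  | Rl.y3 => ((z, false), nil, y3)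
  | Rl.stPass d => ((Tp.dat d, false), st, nil)
  | Rl.stGo => ((Tp.dat Dat.s0, false), st, nil)
  | Rl.s1 => ((Tp.s1, false), nil, nil)
  | Rl.eaL s o => ((Tp.dat (Dat.d2 s o), false), ea, nil)
  | Rl.ebS s => ((Tp.d1 (some s), false), eb, nil)
  | Rl.ebN => ((Tp.d1 none, false), eb, nil)
  | Rl.hPass s => ((Tp.r, false), h, s)
  | Rl.eaR s t => ((Tp.dat (Dat.e2 s t), false), nil, ea)
  | Rl.ebR s => ((Tp.e1 s, false), nil, eb)
  | Rl.haPass s => ((Tp.r2, false), s, ha)
  | Rl.hbPass s => ((Tp.r2, false), s, hb)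
  | Rl.convK s => ((Tp.conv, false), s, k)
  | Rl.convH => ((Tp.conv, false), h, hb)
  | Rl.zH => ((z, false), h, hb)
  | Rl.kPass s => ((z, false), s, k)
  | Rl.kPre => ((z, false), pre, q)
  | Rl.wr a s => (pA a, x (enc s).1, x (enc s).2)

open Sg in
noncomputable def out : Rl → T
  | Rl.idle b => ((b, false), nil, nil)
  | Rl.gpass b t => ((b, false), nil, g t)
  | Rl.wall b s => ((b, true), s, nil)
  | Rl.move b c s => ((b, true), s, ack (some c))
  | Rl.goPass b ins => ((b, false), go ins, nil)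
  | Rl.goI b s => ((b, true), s, incNow)
  | Rl.goM b s => ((b, true), s, c1 false)
  | Rl.incD d => ((Tp.dat (sc d), false), toF, g none)
  | Rl.c1 b t => ((b, false), dec, g (some (some t)))
  | Rl.decS b s => ((pB b, true), s, c1 true)
  | Rl.decZ s => ((Tp.mem s, false), mv, nil)
  | Rl.ackS b => ((pB b, false), dec2, g (some none))
  | Rl.ackZ => ((z, false), toF, g (some none))
  | Rl.ackM s t c => ((Tp.mem3 s t, false), dec2, g (some (some c)))
  | Rl.memS s t => ((Tp.mem2 s t, false), nil, nil)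
  | Rl.dec2 b s => ((b, true), s, ack none)
  | Rl.toF b s => ((b, true), s, fetch)
  | Rl.fPass b => ((b, false), nil, fetch)
  | Rl.fTurn ins => ((Tp.m ins true, false), go ins, g none)
  | Rl.fEnd => ((Tp.fin, false), back true, g none)
  | Rl.back ins c => ((Tp.m (xor ins c) false, false), back (ins && c), g (some (some c)))
  | Rl.build0 d => ((Tp.dat d, true), st, wait false)
  | Rl.build1 d => ((Tp.dat d, true), st, w0)
  | Rl.w0 => ((z, false), nil, wait true)
  | Rl.wPass ins c => ((Tp.m ins false, false), nil, wait c)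
  | Rl.wEnd => ((Tp.fin, false), go false, g none)
  | Rl.wExt => ((Tp.m false false, false), nil, y1)
  | Rl.y1 => ((Tp.m false false, false), nil, y2)
  | Rl.y2 => ((Tp.m false false, false), nil, y3)
  | Rl.y3 => ((Tp.fin, false), go false, g (some none))
  | Rl.stPass d => ((Tp.dat d, false), st, nil)
  | Rl.stGo => ((Tp.s1, false), ea, ea)
  | Rl.s1 => ((Tp.conv, false), eb, eb)
  | Rl.eaL s o => ((Tp.d1 o, false), ea, s)
  | Rl.ebS s => ((Tp.r, false), eb, s)
  | Rl.ebN => ((z, false), eb, hb)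
  | Rl.hPass s => ((Tp.r, false), h, s)
  | Rl.eaR s t => ((Tp.e1 t, false), s, ea)
  | Rl.ebR s => ((Tp.r2, false), s, eb)
  | Rl.haPass s => ((Tp.r2, false), s, ha)
  | Rl.hbPass s => ((Tp.r2, false), s, hb)
  | Rl.convK s => ((Tp.conv, false), s, ha)
  | Rl.convH => ((Tp.conv, false), h, hb)
  | Rl.zH => ((z, false), h, hb)
  | Rl.kPass s => ((z, false), s, k)
  | Rl.kPre => ((z, false), mv, k)
  | Rl.wr a s => (a, s, k)

theorem enc_ext (s t : Sg) (h1 : (enc s).1 = (enc t).1) (h2 : (enc s).2 = (enc t).2) : s = t :=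
  enc_inj (Prod.ext h1 h2)

theorem inp_inj (a b : Rl) (ha : ok a) (hb : ok b) (h : inp a = inp b) : a = b := by
  cases a <;> cases b <;> simp only [inp, Prod.mk.injEq, reduceCtorEq, and_false, false_and,
    and_true, true_and] at h <;> first
    | (simp_all [ok, FP, SP, nQ_s1, nQ_mem]; done)
    | (obtain ⟨h1, h2⟩ := h; subst_vars; simp_all [ok, FP, SP, nQ_s1, nQ_mem]; done)
    | (obtain ⟨h1, h2, h3⟩ := h
       simp only [Sg.x.injEq] at h2 h3
       rw [pA_inj _ _ ha.1 hb.1 h1, enc_ext _ _ h2 h3])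

theorem out_inj (a b : Rl) (ha : ok a) (hb : ok b) (h : out a = out b) : a = b := by
  cases a <;> cases b <;> simp only [out, Prod.mk.injEq, reduceCtorEq, and_false, false_and,
    and_true, true_and] at h <;> first
    | (simp_all [ok, nQ_mem2]; done)
    | (subst_vars; simp_all [ok, nQ_mem2]; done)
    | (exact absurd (h ▸ hb) (nQ_mem2 _ _))
    | (obtain ⟨h1, h2⟩ := h; subst_vars; simp_all [ok]; done)
    | (rw [sc_inj (Tp.dat.inj h)])
    | (rw [pB_inj _ _ ha.1 hb.1 h])
    | (obtain ⟨h1, h2⟩ := h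
       rw [pB_inj _ _ ha hb h1]
       simp_all)

theorem exists_pi : ∃ p : Equiv.Perm T, ∀ a, ok a → p (inp a) = out a := by
  have h1 : Function.Injective (fun a : {a : Rl // ok a} => inp a.1) :=
    fun a b h => Subtype.ext (inp_inj _ _ a.2 b.2 h)
  have h2 : Function.Injective (fun a : {a : Rl // ok a} => out a.1) :=
    fun a b h => Subtype.ext (out_inj _ _ a.2 b.2 h)
  have : Finite {a : Rl // ok a} := Finite.of_injective _ h1
  obtain ⟨p, hp⟩ := Equiv.Perm.exists_extending_pair _ _ h1 h2
  exact ⟨p, fun a ha => hp ⟨a, ha⟩⟩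

/-- The local permutation. -/
noncomputable def pi : Equiv.Perm T := exists_pi.choose

theorem pi_rl (a : Rl) (ha : ok a) : pi (inp a) = out a := exists_pi.choose_spec a ha

theorem rho_rl (a : Rl) (ha : ok a) : pi.symm (out a) = inp a := by
  rw [← pi_rl a ha]; simp

/-- The global map. -/
noncomputable def F (x : ℤ → T) : ℤ → T :=
  fun j => ((pi (x j)).1, (pi (x (j + 1))).2.1, (pi (x (j - 1))).2.2)

/-- The inverse global map. -/
noncomputable def G (y : ℤ → T) : ℤ → T :=
  fun j => pi.symm ((y j).1, (y (j - 1)).2.1, (y (j + 1)).2.2)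

theorem F_G (y : ℤ → T) : F (G y) = y := by
  funext j
  simp [F, G]

theorem G_F (x : ℤ → T) : G (F x) = x := by
  funext j
  simp [F, G]

theorem F_cone (k : ℕ) : ∀ (x y : ℤ → T) (a b : ℤ), (∀ j, a - k ≤ j → j ≤ b + k → x j = y j) →
    ∀ j, a ≤ j → j ≤ b → F^[k] x j = F^[k] y j := by
  induction k with
  | zero => intro x y a b h j h1 h2; exact h j (by simpa using h1) (by simpa using h2)
  | succ k ih =>
    intro x y a b h j h1 h2
    rw [Function.iterate_succ_apply, Function.iterate_succ_apply]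
    apply ih _ _ a b _ j h1 h2
    intro i h3 h4
    push_cast at h
    simp only [F]
    rw [h i (by omega) (by omega), h (i + 1) (by omega) (by omega), h (i - 1) (by omega) (by omega)]

theorem G_cone (k : ℕ) : ∀ (x y : ℤ → T) (a b : ℤ), (∀ j, a - k ≤ j → j ≤ b + k → x j = y j) →
    ∀ j, a ≤ j → j ≤ b → G^[k] x j = G^[k] y j := by
  induction k with
  | zero => intro x y a b h j h1 h2; exact h j (by simpa using h1) (by simpa using h2)
  | succ k ih =>
    intro x y a b h j h1 h2
    rw [Function.iterate_succ_apply, Function.iterate_succ_apply]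
    apply ih _ _ a b _ j h1 h2
    intro i h3 h4
    push_cast at h
    simp only [G]
    rw [h i (by omega) (by omega), h (i + 1) (by omega) (by omega), h (i - 1) (by omega) (by omega)]

theorem F_G_iter (k : ℕ) (y : ℤ → T) : F^[k] (G^[k] y) = y :=
  Function.LeftInverse.iterate F_G k y

end Pool.Agent.H130Z.UPG
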