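import Pool.Agent.H130Z.UPG.Rules

set_option autoImplicit false

namespace Pool.Agent.H130Z.UPG

open Sg

def IsG (s : Sg) : Prop := s = nil ∨ ∃ t, s = g t

theorem pi_G (b : Tp) (hb : Q b) (s : Sg) (hs : IsG s) :
    pi ((b, false), nil, s) = ((b, false), nil, s) := by
  rcases hs with rfl | ⟨t, rfl⟩
  · exact pi_rl (Rl.idle b) hb
  · exact pi_rl (Rl.gpass b t) hb

/-- The controller's side: wall at `i`, tape `t` to its right, head at `c`. -/
structure Cf (x : ℤ → T) (i : ℤ) (b : Tp) (t : ℤ → Tp) (c : ℤ) (lft : Bool) (qq : Sg) : Prop where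
  wall : (x i).1 = (b, true)
  tape : ∀ j, i < j → (x j).1 = (t j, false)
  ns : ∀ j, i < j → Q (t j)
  le : i ≤ c
  lt : lft = false → i < c
  l : ∀ j, i ≤ j → (x j).2.1 = if j = c ∧ lft = true then qq else nil
  rl : ∀ j, i < j → j < c → (x j).2.2 = nil
  rc : i < c → (x c).2.2 = if lft = true then nil else qq
  rg : ∀ j, c < j → IsG (x j).2.2

variable {x : ℤ → T} {i c : ℤ} {b : Tp} {t : ℤ → Tp} {lft : Bool} {qq : Sg}

theorem Cf.congr (h : Cf x i b t c lft qq) {t' : ℤ → Tp} (ht : ∀ j, i < j → t' j = t j) :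
    Cf x i b t' c lft qq :=
  { h with
    tape := fun j hj => by rw [ht j hj]; exact h.tape j hj
    ns := fun j hj => by rw [ht j hj]; exact h.ns j hj }

theorem Cf.cell (h : Cf x i b t c lft qq) (hc : i < c) :
    x c = ((t c, false), if lft = true then qq else nil, if lft = true then nil else qq) := by
  refine Prod.ext (h.tape c hc) (Prod.ext ?_ (h.rc hc))
  rw [h.l c hc.le]; simp

theorem Cf.isG (h : Cf x i b t c lft qq) (j : ℤ) (hj : i < j) (hc : j ≠ c) : IsG (x j).2.2 := by
  rcases lt_or_gt_of_ne hc with h1 | h1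
  · rw [h.rl j hj h1]; exact Or.inl rfl
  · exact h.rg j h1

theorem Cf.other (h : Cf x i b t c lft qq) (j : ℤ) (hj : i < j) (hc : j ≠ c) :
    pi (x j) = ((t j, false), nil, (x j).2.2) := by
  have : x j = ((t j, false), nil, (x j).2.2) := by
    refine Prod.ext (h.tape j hj) (Prod.ext ?_ rfl)
    rw [h.l j hj.le]; simp [hc]
  rw [this]
  exact pi_G _ (h.ns j hj) _ (h.isG j hj hc)

theorem Cf.wallo (h : Cf x i b t c lft qq) (hc : i < c) :
    pi (x i) = ((b, true), (x i).2.2, nil) := by
  have : x i = ((b, true), nil, (x i).2.2) := by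
    refine Prod.ext h.wall (Prod.ext ?_ rfl)
    rw [h.l i le_rfl]; simp [hc.ne]
  rw [this]
  exact pi_rl (Rl.wall b _) trivial

theorem Cf.stepL (h : Cf x i b t c lft qq) (hc : i < c) {b' : Tp} {q' s : Sg} (hb' : Q b')
    (hs : IsG s)
    (hp : pi ((t c, false), if lft = true then qq else nil, if lft = true then nil else qq) =
      ((b', false), q', s)) :
    Cf (F x) i b (Function.update t c b') (c - 1) true q' := by
  rw [← h.cell hc] at hp
  have hw := h.wallo hc
  refine ⟨?_, ?_, ?_, by omega, by simp, ?_, ?_, ?_, ?_⟩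
  · simp [F, hw]
  · intro j hj
    by_cases hjc : j = c
    · subst hjc; simp [F, hp]
    · simp [F, h.other j hj hjc, Function.update_of_ne hjc]
  · intro j hj
    by_cases hjc : j = c
    · subst hjc; simpa using hb'
    · simpa [Function.update_of_ne hjc] using h.ns j hj
  · intro j hj
    by_cases hjc : j + 1 = c
    · have : j = c - 1 := by omega
      simp [F, hp, this]
    · have : j ≠ c - 1 := by omega
      simp [F, h.other (j + 1) (by omega) hjc, this]
  · intro j hj hj2
    by_cases hji : j - 1 = i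
    · simp [F, hji, hw]
    · simp [F, h.other (j - 1) (by omega) (by omega), h.rl (j - 1) (by omega) (by omega)]
  · intro hj
    by_cases hji : c - 1 - 1 = i
    · simp [F, hji, hw]
    · simp [F, h.other (c - 1 - 1) (by omega) (by omega), h.rl (c - 1 - 1) (by omega) (by omega)]
  · intro j hj
    by_cases hji : j - 1 = i
    · simp [F, hji, hw, IsG]
    · by_cases hjc : j - 1 = c
      · simpa [F, hjc, hp] using hs
      · simpa [F, h.other (j - 1) (by omega) hjc] using h.isG (j - 1) (by omega) hjc

theorem Cf.stepR (h : Cf x i b t c lft qq) (hc : i < c) {b' : Tp} {q' : Sg} (hb' : Q b')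
    (hp : pi ((t c, false), if lft = true then qq else nil, if lft = true then nil else qq) =
      ((b', false), nil, q')) :
    Cf (F x) i b (Function.update t c b') (c + 1) false q' := by
  rw [← h.cell hc] at hp
  have hw := h.wallo hc
  refine ⟨?_, ?_, ?_, by omega, fun _ => by omega, ?_, ?_, ?_, ?_⟩
  · simp [F, hw]
  · intro j hj
    by_cases hjc : j = c
    · subst hjc; simp [F, hp]
    · simp [F, h.other j hj hjc, Function.update_of_ne hjc]
  · intro j hj
    by_cases hjc : j = c
    · subst hjc; simpa using hb'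
    · simpa [Function.update_of_ne hjc] using h.ns j hj
  · intro j hj
    by_cases hjc : j + 1 = c
    · simp [F, hjc, hp]
    · simp [F, h.other (j + 1) (by omega) hjc]
  · intro j hj hj2
    by_cases hji : j - 1 = i
    · simp [F, hji, hw]
    · simp [F, h.other (j - 1) (by omega) (by omega), h.rl (j - 1) (by omega) (by omega)]
  · intro hj
    simp [F, hp]
  · intro j hj
    simpa [F, h.other (j - 1) (by omega) (by omega)] using h.isG (j - 1) (by omega) (by omega)

theorem Cf.wcell (h : Cf x i b t i true qq) : x i = ((b, true), qq, (x i).2.2) := by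
  refine Prod.ext h.wall (Prod.ext ?_ rfl)
  rw [h.l i le_rfl]; simp

theorem Cf.stepW (h : Cf x i b t i true qq) {b' : Tp} {q' : Sg}
    (hp : ∀ s, pi ((b, true), qq, s) = ((b', true), s, q')) :
    Cf (F x) i b' t (i + 1) false q' := by
  have hw : pi (x i) = ((b', true), (x i).2.2, q') := by rw [h.wcell]; exact hp _
  refine ⟨?_, ?_, h.ns, by omega, fun _ => by omega, ?_, ?_, ?_, ?_⟩
  · simp [F, hw]
  · intro j hj
    simp [F, h.other j hj hj.ne']
  · intro j hj
    simp [F, h.other (j + 1) (by omega) (by omega)]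
  · intro j hj hj2
    omega
  · intro hj
    simp [F, hw]
  · intro j hj
    simpa [F, h.other (j - 1) (by omega) (by omega)] using h.isG (j - 1) (by omega) (by omega)

theorem Cf.stepMove (h : Cf x i z t i true dec) :
    ∃ s s' b', Cf (F (F (F x))) (i - 1) b' (Function.update t i (Tp.mem3 s s')) (i - 1) true dec2 := by
  have hw : pi (x i) = ((Tp.mem (x i).2.2, false), mv, nil) := by
    rw [h.wcell]; exact pi_rl (Rl.decZ _) trivial
  have h1 : ∀ j, i < j → F x j = ((t j, false), nil, (F x j).2.2) ∧ IsG (F x j).2.2 := by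
    intro j hj
    refine ⟨?_, ?_⟩
    · simp [F, h.other j hj hj.ne', h.other (j + 1) (by omega) (by omega)]
    · by_cases hji : j - 1 = i
      · simp [F, hji, hw, IsG]
      · simpa [F, h.other (j - 1) (by omega) (by omega)] using h.isG (j - 1) (by omega) (by omega)
  have h2 : ∀ j, i < j → pi (F x j) = ((t j, false), nil, (F x j).2.2) := by
    intro j hj
    rw [(h1 j hj).1]
    exact pi_G _ (h.ns j hj) _ (h1 j hj).2
  obtain ⟨s, hs⟩ : ∃ s, (x i).2.2 = s := ⟨_, rfl⟩
  obtain ⟨s', hs'⟩ : ∃ s', (F x i).2.2 = s' := ⟨_, rfl⟩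
  have h3 : F x i = ((Tp.mem s, false), nil, s') := by
    refine Prod.ext ?_ (Prod.ext ?_ hs')
    · simp [F, hw, hs]
    · simp [F, h.other (i + 1) (by omega) (by omega)]
  have h4 : pi (F x i) = ((Tp.mem2 s s', false), nil, nil) := by
    rw [h3]; exact pi_rl (Rl.memS s s') trivial
  obtain ⟨b', c', s'', h5⟩ : ∃ b' c' s'', F x (i - 1) = ((b', c'), mv, s'') := by
    refine ⟨(F x (i - 1)).1.1, (F x (i - 1)).1.2, (F x (i - 1)).2.2, ?_⟩
    refine Prod.ext rfl (Prod.ext ?_ rfl)
    simp [F, hw]
  have h6 : pi (F x (i - 1)) = ((b', true), s'', ack (some c')) := by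
    rw [h5]; exact pi_rl (Rl.move b' c' s'') trivial
  generalize F x = y at h1 h2 h4 h6
  have g1 : ∀ j, i < j → F y j = ((t j, false), nil, (F y j).2.2) ∧ IsG (F y j).2.2 := by
    intro j hj
    refine ⟨?_, ?_⟩
    · simp [F, h2 j hj, h2 (j + 1) (by omega)]
    · by_cases hji : j - 1 = i
      · simp [F, hji, h4, IsG]
      · simpa [F, h2 (j - 1) (by omega)] using (h1 (j - 1) (by omega)).2
  have g2 : ∀ j, i < j → pi (F y j) = ((t j, false), nil, (F y j).2.2) := by
    intro j hj
    rw [(g1 j hj).1]
    exact pi_G _ (h.ns j hj) _ (g1 j hj).2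
  have g3 : F y i = ((Tp.mem2 s s', false), nil, ack (some c')) := by
    simp [F, h4, h6, h2 (i + 1) (by omega)]
  have g4 : pi (F y i) = ((Tp.mem3 s s', false), dec2, g (some (some c'))) := by
    rw [g3]; exact pi_rl (Rl.ackM s s' c') trivial
  have g5 : F y (i - 1) = ((b', true), nil, (F y (i - 1)).2.2) := by
    simp [F, h4, h6]
  have g6 : pi (F y (i - 1)) = ((b', true), (F y (i - 1)).2.2, nil) := by
    rw [g5]; exact pi_rl (Rl.wall _ _) trivial
  generalize F y = u at g1 g2 g4 g6
  refine ⟨s, s', b', ?_, ?_, ?_, le_rfl, by simp, ?_, ?_, ?_, ?_⟩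
  · simp [F, g6]
  · intro j hj
    by_cases hji : j = i
    · subst hji; simp [F, g4]
    · simp [F, g2 j (by omega), Function.update_of_ne hji]
  · intro j hj
    by_cases hji : j = i
    · subst hji; simpa using Q_mem3 _ _
    · simpa [Function.update_of_ne hji] using h.ns j (by omega)
  · intro j hj
    by_cases hji : j = i - 1
    · subst hji; simp [F, g4]
    · simp [F, g2 (j + 1) (by omega), hji]
  · intro j hj hj2; omega
  · intro hj; omega
  · intro j hj
    by_cases hji : j = i
    · subst hji; simp [F, g6, IsG]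
    · by_cases hji2 : j - 1 = i
      · simp [F, hji2, g4, IsG]
      · simpa [F, g2 (j - 1) (by omega)] using (g1 (j - 1) (by omega)).2

/-- The laboratory: data cells between two walls with the start signal at `p`. -/
structure Lab (x : ℤ → T) (i h : ℤ) (D : ℤ → Dat) (p : ℤ) : Prop where
  wall : (x i).1.2 = true
  wl : (x i).2.1 = nil
  cell : ∀ j, i < j → j < h → x j = ((Tp.dat (D j), false), if j = p then st else nil, nil)
  rh : (x h).2.2 = nil

theorem Cf.stepBuild (h : Cf x i b t c true qq) (hc : i < c) {d : Dat} {q' : Sg} (hd : t c = Tp.dat d)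
    (hp : pi ((Tp.dat d, false), qq, nil) = ((Tp.dat d, true), st, q')) :
    Cf (F x) c (Tp.dat d) t (c + 1) false q' ∧
      ∀ D : ℤ → Dat, (∀ j, i < j → j < c → t j = Tp.dat (D j)) → i + 1 < c → Lab (F x) i c D (c - 1) := by
  have hx := h.cell hc
  simp only [hd, if_true] at hx
  rw [← hx] at hp
  have hw := h.wallo hc
  refine ⟨⟨?_, ?_, fun j hj => h.ns j (by omega), by omega, fun _ => by omega, ?_, ?_, ?_, ?_⟩, ?_⟩
  · simp [F, hp]
  · intro j hj
    simp [F, h.other j (by omega) hj.ne']
  · intro j hj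
    simp [F, h.other (j + 1) (by omega) (by omega)]
  · intro j hj hj2; omega
  · intro hj
    simp [F, hp]
  · intro j hj
    simpa [F, h.other (j - 1) (by omega) (by omega)] using h.isG (j - 1) (by omega) (by omega)
  · intro D hD hi
    refine ⟨?_, ?_, ?_, ?_⟩
    · simp [F, hw]
    · simp [F, h.other (i + 1) (by omega) (by omega)]
    · intro j hj hj2
      have e1 : (pi (x (j - 1))).2.2 = nil := by
        by_cases hji : j - 1 = i
        · simp [hji, hw]
        · simp [h.other (j - 1) (by omega) (by omega), h.rl (j - 1) (by omega) (by omega)]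
      by_cases hjc : j = c - 1
      · have : j + 1 = c := by omega
        simp only [F, e1, this, hp, h.other j hj hj2.ne, hD j hj hj2]
        simp [hjc]
      · simp only [F, e1, h.other j hj hj2.ne, hD j hj hj2, h.other (j + 1) (by omega) (by omega)]
        simp [hjc]
    · simp [F, h.other (c - 1) (by omega) (by omega), h.rl (c - 1) (by omega) (by omega)]

theorem Lab.step {hh p : ℤ} {D : ℤ → Dat} (h : Lab x i hh D p) (hi : i + 1 < p) (hp : p < hh)
    (hD : SP (D p)) (hw : (x hh).1.2 = true) (hl : (x hh).2.1 = nil) :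
    Lab (F x) i hh D (p - 1) := by
  have e0 : ∀ j, (x j).1.2 = true → (x j).2.1 = nil → pi (x j) = ((x j).1, (x j).2.2, nil) := by
    intro j h1 h2
    have : x j = (((x j).1.1, true), nil, (x j).2.2) :=
      Prod.ext (Prod.ext rfl h1) (Prod.ext h2 rfl)
    rw [this]
    exact pi_rl (Rl.wall _ _) trivial
  have e1 := e0 i h.wall h.wl
  have e2 := e0 hh hw hl
  have e3 : ∀ j, i < j → j < hh →
      pi (x j) = ((Tp.dat (D j), false), if j = p then st else nil, nil) := by
    intro j h1 h2
    rw [h.cell j h1 h2]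
    by_cases hj : j = p
    · subst hj; simp only [if_true]; exact pi_rl (Rl.stPass _) hD
    · simp only [hj, if_false]; exact pi_rl (Rl.idle _) (Q_dat _)
  refine ⟨?_, ?_, ?_, ?_⟩
  · simp [F, e1, h.wall]
  · have : i + 1 ≠ p := by omega
    simp [F, e3 (i + 1) (by omega) (by omega), this]
  · intro j h1 h2
    have a1 : (pi (x (j - 1))).2.2 = nil := by
      by_cases hji : j - 1 = i
      · simp [hji, e1]
      · simp [e3 (j - 1) (by omega) (by omega)]
    have a2 : (pi (x (j + 1))).2.1 = if j = p - 1 then st else nil := by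
      by_cases hjh : j + 1 = hh
      · have : j ≠ p - 1 := by omega
        simp [hjh, e2, h.rh, this]
      · rw [e3 (j + 1) (by omega) (by omega)]
        by_cases hjp : j = p - 1
        · simp [hjp]
        · have : j + 1 ≠ p := by omega
          simp [hjp, this]
    simp only [F, a1, a2, e3 j h1 h2]
  · simp [F, e3 (hh - 1) (by omega) (by omega)]

end Pool.Agent.H130Z.UPG
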